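import Pool.Agent.H863R2.Nest.Defs

/-!
# Module Adj (helper989): adjacent lower faces are adjacent above a row
-/

namespace Pool.Agent.H863R2.Nest
open Pool.Agent.H863R2.Cyl
open Pool.Agent.H988R2.Perc (Word)

namespace AdjAux

open Sem1Aux (RH)

/-- heights, types of the plaquettes and an equivalence relation containing the links -/
structure Sy (K : ℤ → ℤ) (d : ℤ → Bool) (E : ℤ × Bool → ℤ × Bool → Prop) : Prop where
  eqv : Equivalence E
  st : ∀ a, K (a + 1) = K a + 1 ∨ K (a + 1) = K a - 1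
  low : ∀ a b, RH K a b → E (a, false) (b, false)
  l0 : ∀ j, d j = false → E (j, false) (j + 1, true)
  l1 : ∀ j, d j = true → E (j + 1, false) (j, true)

/-- the lower face `b` is linked -/
def Lk (d : ℤ → Bool) (b : ℤ) : Prop := d b = false ∨ d (b - 1) = true

/-- consecutive members of a class -/
def Cn (K : ℤ → ℤ) (a b : ℤ) : Prop := a < b ∧ K a = K b ∧ ∀ l, a < l → l < b → K a < K l

/-- mirror image of the types -/
def mt (d : ℤ → Bool) (j : ℤ) : Bool := !d (-j - 1)

/-- mirror image of the relation -/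
def mE (E : ℤ × Bool → ℤ × Bool → Prop) (p q : ℤ × Bool) : Prop := E (-p.1, p.2) (-q.1, q.2)

theorem Lk_mirror {d : ℤ → Bool} {b : ℤ} : Lk (mt d) b ↔ Lk d (-b) := by
  unfold Lk mt
  have e1 : -(b - 1) - 1 = -b := by ring
  rw [e1]
  rw [show ((!d (-b - 1)) = false ↔ d (-b - 1) = true) by simp,
    show ((!d (-b)) = true ↔ d (-b) = false) by simp]
  exact or_comm

theorem RH_mirror {K : ℤ → ℤ} {a b : ℤ} (h : RH (fun a => K (-a)) a b) : RH K (-a) (-b) := by
  refine ⟨h.1, fun l hl => ?_⟩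
  have := h.2 (-l) (by omega)
  simpa using this

theorem RH_mirror' {K : ℤ → ℤ} {a b : ℤ} (h : RH K (-a) (-b)) : RH (fun a => K (-a)) a b := by
  refine ⟨h.1, fun l hl => ?_⟩
  exact h.2 (-l) (by omega)

theorem Cn_mirror {K : ℤ → ℤ} {a b : ℤ} (h : Cn (fun a => K (-a)) a b) : Cn K (-b) (-a) := by
  refine ⟨by have := h.1; omega, h.2.1.symm, fun l h1 h2 => ?_⟩
  have := h.2.2 (-l) (by omega) (by omega)
  simp only [neg_neg] at this
  have e := h.2.1
  simp only at e
  omega

theorem Cn_mirror' {K : ℤ → ℤ} {a b : ℤ} (h : Cn K (-b) (-a)) : Cn (fun a => K (-a)) a b := by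
  refine ⟨by have := h.1; omega, h.2.1.symm, fun l h1 h2 => ?_⟩
  have := h.2.2 (-l) (by omega) (by omega)
  have e := h.2.1
  show K (-a) < K (-l)
  omega

variable {K : ℤ → ℤ} {d : ℤ → Bool} {E : ℤ × Bool → ℤ × Bool → Prop}

theorem Sy.mirror (S : Sy K d E) : Sy (fun a => K (-a)) (mt d) (mE E) where
  eqv := ⟨fun _ => S.eqv.refl _, fun h => S.eqv.symm h, fun h h' => S.eqv.trans h h'⟩
  st a := by
    have h := S.st (-(a + 1))
    have e : -(a + 1) + 1 = -a := by ring
    rw [e] at h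
    show K (-(a + 1)) = K (-a) + 1 ∨ K (-(a + 1)) = K (-a) - 1
    omega
  low a b h := S.low _ _ (RH_mirror h)
  l0 j h := by
    have h1 : d (-j - 1) = true := by
      unfold mt at h; simpa using h
    have h2 := S.l1 _ h1
    have e1 : -j - 1 + 1 = -j := by ring
    have e2 : -(j + 1) = -j - 1 := by ring
    rw [e1] at h2
    show E (-j, false) (-(j + 1), true)
    rw [e2]
    exact h2
  l1 j h := by
    have h1 : d (-j - 1) = false := by
      unfold mt at h; simpa using h
    have h2 := S.l0 _ h1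
    have e1 : -j - 1 + 1 = -j := by ring
    have e2 : -(j + 1) = -j - 1 := by ring
    rw [e1] at h2
    show E (-(j + 1), false) (-j, true)
    rw [e2]
    exact h2

theorem exists_next {a b : ℤ} (hab : a < b) (h : RH K a b) :
    ∃ z, Cn K a z ∧ z ≤ b ∧ RH K z b := by
  classical
  have hex : ∃ n : ℕ, K (a + 1 + n) = K a := by
    refine ⟨(b - a - 1).toNat, ?_⟩
    have : a + 1 + ((b - a - 1).toNat : ℤ) = b := by omega
    rw [this]
    exact h.1.symm
  have h1 := Nat.find_spec hex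
  have h2 : ∀ m : ℕ, m < Nat.find hex → K (a + 1 + m) ≠ K a := fun m hm => Nat.find_min hex hm
  set n := Nat.find hex with hn
  have hle : a + 1 + (n : ℤ) ≤ b := by
    by_contra hcon
    have := h2 (b - a - 1).toNat (by omega)
    apply this
    have e : a + 1 + ((b - a - 1).toNat : ℤ) = b := by omega
    rw [e]
    exact h.1.symm
  refine ⟨a + 1 + n, ⟨by omega, h1.symm, fun l hl hl' => ?_⟩, hle, ?_⟩
  · have h3 := h.2 l (Or.inl ⟨by omega, by omega⟩)
    have h4 := h2 (l - a - 1).toNat (by omega)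
    have e : a + 1 + ((l - a - 1).toNat : ℤ) = l := by omega
    rw [e] at h4
    omega
  · refine RH.of_le hle (by rw [h1, h.1]) fun l hl hl' => ?_
    rw [h1]
    exact h.2 l (Or.inl ⟨by omega, hl'⟩)

theorem Cn.rh {a b : ℤ} (h : Cn K a b) : RH K a b := by
  refine RH.of_le h.1.le h.2.1 fun l hl hl' => ?_
  rcases eq_or_lt_of_le hl with rfl | h1
  · exact le_rfl
  · rcases eq_or_lt_of_le hl' with rfl | h2
    · exact h.2.1.le
    · exact (h.2.2 l h1 h2).le

theorem Cn.inner (hst : ∀ a, K (a + 1) = K a + 1 ∨ K (a + 1) = K a - 1) {a b : ℤ}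
    (h : Cn K a b) : RH K (a + 1) (b - 1) := by
  obtain ⟨h1, h2, h3⟩ := h
  have e1 : b - 1 + 1 = b := by ring
  have hb := hst (b - 1)
  rw [e1] at hb
  have ha := hst a
  have hne : a + 1 ≠ b := by
    intro h
    rw [h] at ha
    omega
  have h4 := h3 (a + 1) (by omega) (by omega)
  have h5 := h3 (b - 1) (by omega) (by omega)
  refine RH.of_le (by omega) (by omega) fun l hl hl' => ?_
  have := h3 l (by omega) (by omega)
  omega

/-- an unlinked face -/
theorem Sy.un (S : Sy K d E) {b : ℤ} (h : ¬ Lk d b) : E (b + 1, false) (b, true) ∧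
    E (b - 1, false) (b, true) ∧ Lk d (b + 1) ∧ Lk d (b - 1) := by
  unfold Lk at h
  push Not at h
  have h1 : d b = true := by simpa using h.1
  have h2 : d (b - 1) = false := by simpa using h.2
  refine ⟨S.l1 b h1, ?_, ?_, ?_⟩
  · have := S.l0 (b - 1) h2
    rwa [sub_add_cancel] at this
  · right
    rwa [add_sub_cancel_right]
  · left
    exact h2

theorem Sy.easy (S : Sy K d E) {x : ℤ} (h : Lk d x) (h' : Lk d (x + 1)) :
    ∃ X Y : ℤ, nb X Y ∧ E (x, false) (X, true) ∧ E (x + 1, false) (Y, true) := by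
  unfold Lk at h h'
  rw [add_sub_cancel_right] at h'
  by_cases hd : d x = false
  · have h1 : d (x + 1) = false := by
      rcases h' with h | h
      · exact h
      · rw [hd] at h; exact absurd h (by decide)
    exact ⟨x + 1, x + 1 + 1, Or.inl rfl, S.l0 x hd, S.l0 (x + 1) h1⟩
  · have hd' : d x = true := by simpa using hd
    have h1 : d (x - 1) = true := by
      rcases h with h | h
      · exact absurd h hd
      · exact h
    have h2 := S.l1 (x - 1) h1
    rw [sub_add_cancel] at h2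
    exact ⟨x - 1, x, Or.inl (by ring), h2, S.l1 x hd'⟩

/-- two consecutive unlinked faces -/
theorem Sy.ustep (S : Sy K d E) {x z : ℤ} (h : Cn K x z) (hx : ¬ Lk d x) (hz : ¬ Lk d z) :
    E (x, true) (z, true) :=
  S.eqv.trans (S.eqv.symm (S.un hx).1)
    (S.eqv.trans (S.low _ _ (h.inner S.st)) (S.un hz).2.1)

theorem Sy.first (S : Sy K d E) (n : ℕ) : ∀ y e : ℤ, (e - y).toNat = n → y < e → RH K y e →
    ¬ Lk d y → Lk d e → ∃ y' e', Cn K y' e' ∧ y ≤ y' ∧ e' ≤ e ∧ RH K y y' ∧
      E (y, true) (y', true) ∧ ¬ Lk d y' ∧ Lk d e' := by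
  induction n using Nat.strong_induction_on with
  | _ n ih =>
  intro y e hn hye h hy he
  obtain ⟨z, hz, hze, hzR⟩ := exists_next hye h
  by_cases hl : Lk d z
  · exact ⟨y, z, hz, le_rfl, hze, RH.refl _ _, S.eqv.refl _, hy, hl⟩
  · have hne : z ≠ e := fun h => hl (h ▸ he)
    have hyz := hz.1
    obtain ⟨y', e', h1, h2, h3, h4, h5, h6, h7⟩ := ih (e - z).toNat (by omega) z e rfl
      (by omega) hzR hl he
    exact ⟨y', e', h1, by omega, h3, hz.rh.trans h4, S.eqv.trans (S.ustep hz hy hl) h5, h6, h7⟩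

theorem Sy.last (S : Sy K d E) {y e : ℤ} (hye : e < y) (h : RH K y e)
    (hy : ¬ Lk d y) (he : Lk d e) : ∃ y' e', Cn K e' y' ∧ y' ≤ y ∧ e ≤ e' ∧ RH K y y' ∧
      E (y, true) (y', true) ∧ ¬ Lk d y' ∧ Lk d e' := by
  obtain ⟨y', e', h1, h2, h3, h4, h5, h6, h7⟩ := S.mirror.first _ (-y) (-e) rfl (by omega)
    (RH_mirror' (by rw [neg_neg, neg_neg]; exact h)) (by rw [Lk_mirror, neg_neg]; exact hy)
    (by rw [Lk_mirror, neg_neg]; exact he)
  refine ⟨-y', -e', Cn_mirror h1, by omega, by omega, ?_, ?_, by rwa [Lk_mirror] at h6,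
    by rwa [Lk_mirror] at h7⟩
  · have := RH_mirror h4
    rwa [neg_neg] at this
  · have h8 : E (-(-y), true) (-y', true) := h5
    rwa [neg_neg] at h8

theorem main (n : ℕ) : ∀ (K : ℤ → ℤ) (d : ℤ → Bool) (E : ℤ × Bool → ℤ × Bool → Prop),
    Sy K d E → ∀ l r : ℤ, (r - l).toNat = n → Cn K l r → Lk d r → Lk d (l + 1) →
      ∃ X Y : ℤ, nb X Y ∧ E (r - 1, false) (X, true) ∧ E (r, false) (Y, true) := by
  induction n using Nat.strong_induction_on with
  | _ n ih =>
  intro K d E S l r hn hlr hr hl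
  by_cases hr1 : Lk d (r - 1)
  · obtain ⟨X, Y, h1, h2, h3⟩ := S.easy hr1 (by rw [sub_add_cancel]; exact hr)
    rw [sub_add_cancel] at h3
    exact ⟨X, Y, h1, h2, h3⟩
  · have hin := hlr.inner S.st
    have hlt := hlr.1
    have hne : l + 1 ≠ r - 1 := fun h => hr1 (h ▸ hl)
    have hne2 : l + 1 ≠ r := by
      intro h
      have h1 := S.st l
      rw [h] at h1
      have := hlr.2.1
      omega
    obtain ⟨g', g, h1, h2, h3, h4, h5, h6, h7⟩ := S.last (y := r - 1) (e := l + 1) (by omega)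
      hin.symm hr1 hl
    have hgg := h1.1
    -- the mirror image of the claim for the pair `g, g'`
    obtain ⟨X, Y, e1, e2, e3⟩ := ih (-g - -g').toNat (by omega) _ _ _ S.mirror (-g') (-g) rfl
      (Cn_mirror' (by rw [neg_neg, neg_neg]; exact h1)) (by rw [Lk_mirror, neg_neg]; exact h7)
      (by
        rw [Lk_mirror, neg_add, neg_neg]
        exact (S.un h6).2.2.2)
    have e2' : E (-(-g - 1), false) (-X, true) := e2
    have e3' : E (-(-g), false) (-Y, true) := e3
    rw [neg_neg] at e3'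
    have eg : -(-g - 1) = g + 1 := by ring
    rw [eg] at e2'
    refine ⟨-Y, -X, ?_, ?_, ?_⟩
    · unfold nb at e1 ⊢
      omega
    · refine S.eqv.trans (S.low _ _ ?_) e3'
      exact h4.trans h1.rh.symm
    · have f1 := (S.un hr1).1
      rw [sub_add_cancel] at f1
      refine S.eqv.trans f1 (S.eqv.trans h5 (S.eqv.trans (S.eqv.symm (S.un h6).2.1)
        (S.eqv.trans (S.low _ _ (h1.inner S.st).symm) e2')))

/-- one of the two faces is unlinked and has a linked member to the right -/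
theorem Sy.right (S : Sy K d E) {x y e : ℤ} (hxy : nb x y) (hy : ¬ Lk d y) (hye : y < e)
    (h : RH K y e) (he : Lk d e) :
    ∃ X Y : ℤ, nb X Y ∧ E (x, false) (X, true) ∧ E (y, false) (Y, true) := by
  obtain ⟨y', e', h1, h2, h3, h4, h5, h6, h7⟩ := S.first _ y e rfl hye h hy he
  obtain ⟨X, Y, f1, f2, f3⟩ := main _ K d E S y' e' rfl h1 h7 (S.un h6).2.2.1
  refine ⟨X, Y, f1, ?_, S.eqv.trans (S.low _ _ (h4.trans h1.rh)) f3⟩
  have hx : E (x, false) (y, true) := by
    rcases hxy with h | h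
    · have := (S.un hy).2.1
      have e : y - 1 = x := by omega
      rwa [e] at this
    · have := (S.un hy).1
      rwa [← h] at this
  exact S.eqv.trans hx (S.eqv.trans h5 (S.eqv.trans (S.eqv.symm (S.un h6).1)
    (S.eqv.trans (S.low _ _ (h1.inner S.st)) f2)))

theorem Sy.one (S : Sy K d E) {x y e : ℤ} (hxy : nb x y) (hy : ¬ Lk d y)
    (h : RH K y e) (he : Lk d e) :
    ∃ X Y : ℤ, nb X Y ∧ E (x, false) (X, true) ∧ E (y, false) (Y, true) := by
  rcases lt_trichotomy y e with h1 | h1 | h1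
  · exact S.right hxy hy h1 h he
  · exact absurd (h1 ▸ he) hy
  · obtain ⟨X, Y, f1, f2, f3⟩ := S.mirror.right (x := -x) (y := -y) (e := -e)
      (by unfold nb at hxy ⊢; omega) (by rw [Lk_mirror, neg_neg]; exact hy) (by omega)
      (RH_mirror' (by rw [neg_neg, neg_neg]; exact h)) (by rw [Lk_mirror, neg_neg]; exact he)
    have f2' : E (-(-x), false) (-X, true) := f2
    have f3' : E (-(-y), false) (-Y, true) := f3
    rw [neg_neg] at f2' f3'
    exact ⟨-X, -Y, by unfold nb at f1 ⊢; omega, f2', f3'⟩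

theorem Sy.all (S : Sy K d E) {x y : ℤ} (hxy : nb x y) (hx : ∃ e, RH K x e ∧ Lk d e)
    (hy : ∃ e, RH K y e ∧ Lk d e) :
    ∃ X Y : ℤ, nb X Y ∧ E (x, false) (X, true) ∧ E (y, false) (Y, true) := by
  by_cases h1 : Lk d y
  · by_cases h2 : Lk d x
    · rcases hxy with h | h
      · subst h
        exact S.easy h2 h1
      · subst h
        obtain ⟨X, Y, f1, f2, f3⟩ := S.easy h1 h2
        exact ⟨Y, X, f1.symm, f3, f2⟩
    · obtain ⟨e, he1, he2⟩ := hx
      obtain ⟨X, Y, f1, f2, f3⟩ := S.one (x := y) (y := x) hxy.symm h2 he1 he2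
      exact ⟨Y, X, f1.symm, f3, f2⟩
  · obtain ⟨e, he1, he2⟩ := hy
    exact S.one hxy h1 he1 he2

theorem Sy.unl (S : Sy K d E) (n : ℕ) : ∀ x y : ℤ, (y - x).toNat = n → x ≤ y → RH K x y →
    (∀ e, RH K x e → ¬ Lk d e) → E (x, true) (y, true) := by
  induction n using Nat.strong_induction_on with
  | _ n ih =>
  intro x y hn hxy h hx
  rcases eq_or_lt_of_le hxy with rfl | hlt
  · exact S.eqv.refl _
  · obtain ⟨z, hz, hzy, hzR⟩ := exists_next hlt h
    have h1 := hz.1
    refine S.eqv.trans (S.ustep hz (hx x (RH.refl _ _)) (hx z hz.rh))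
      (ih (y - z).toNat (by omega) z y rfl hzy hzR fun e he => hx e (hz.rh.trans he))

theorem sy_row {m : ℕ} (c : Fin (m + 1) → Bool) (w : Word) {K : ℤ → ℤ}
    (hK : ∀ a, K (a + 1) = K a + sg w a) :
    Sy K (cl c) (Relation.EqvGen (Row m c w)) where
  eqv := ⟨fun _ => Relation.EqvGen.refl _, fun h => Relation.EqvGen.symm _ _ h,
    fun h h' => Relation.EqvGen.trans _ _ _ h h'⟩
  st a := by
    rw [hK a]
    unfold sg
    split_ifs
    · left; rfl
    · right; rfl
  low a b h := Relation.EqvGen.rel _ _ (Row.low a b ((Sem1Aux.Rw_iff hK a b).2 h))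
  l0 j h := Relation.EqvGen.rel _ _ (Row.link0 j h)
  l1 j h := Relation.EqvGen.rel _ _ (Row.link1 j h)

end AdjAux

open AdjAux

/-- the lower face `b` is linked to an upper face by a plaquette of the row -/
def Lnk {m : ℕ} (c : Fin (m + 1) → Bool) (b : ℤ) : Prop := cl c b = false ∨ cl c (b - 1) = true

/-- the class of the lower face `b` (connections of the word `w`) contains a linked face -/
def CLnk {m : ℕ} (c : Fin (m + 1) → Bool) (w : Word) (b : ℤ) : Prop := ∃ e, Rw w b e ∧ Lnk c e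

/-- adjacent lower faces with linked classes have adjacent upper representatives -/
theorem adj {m : ℕ} (c : Fin (m + 1) → Bool) (w : Word) {x y : ℤ} (hxy : nb x y)
    (hx : CLnk c w x) (hy : CLnk c w y) :
    ∃ X Y : ℤ, nb X Y ∧ Relation.EqvGen (Row m c w) (x, false) (X, true) ∧
      Relation.EqvGen (Row m c w) (y, false) (Y, true) := by
  obtain ⟨K, hK⟩ := Sem4Aux.exists_pot (sg w)
  obtain ⟨e, he1, he2⟩ := hx
  obtain ⟨f, hf1, hf2⟩ := hy
  exact (sy_row c w hK).all hxy ⟨e, (Sem1Aux.Rw_iff hK _ _).1 he1, he2⟩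
    ⟨f, (Sem1Aux.Rw_iff hK _ _).1 hf1, hf2⟩

/-- the upper faces above the members of an unlinked class are connected -/
theorem unl {m : ℕ} (c : Fin (m + 1) → Bool) (w : Word) {x y : ℤ} (hxy : Rw w x y)
    (hx : ¬ CLnk c w x) : Relation.EqvGen (Row m c w) (x, true) (y, true) := by
  obtain ⟨K, hK⟩ := Sem4Aux.exists_pot (sg w)
  have hR := (Sem1Aux.Rw_iff hK _ _).1 hxy
  have hno : ∀ e, Sem1Aux.RH K x e → ¬ Lk (cl c) e := fun e he hl =>
    hx ⟨e, (Sem1Aux.Rw_iff hK _ _).2 he, hl⟩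
  rcases le_total x y with h | h
  · exact (sy_row c w hK).unl _ x y rfl h hR hno
  · exact Relation.EqvGen.symm _ _ ((sy_row c w hK).unl _ y x rfl h hR.symm
      fun e he => hno e (hR.trans he))

end Pool.Agent.H863R2.Nest
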