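import Pool.Agent.H863R2.Nest.Defs

/-!
# Nesting, module Key: the isolated faces and the colour changes
-/

namespace Pool.Agent.H863R2.Nest
open Pool.Agent.H863R2.Cyl
open Pool.Agent.H863R2.Cyl.Sem4Aux (sm iso sec)
open Pool.Agent.H988R2.Perc (Word)

namespace Key

/-- the first return of a height function -/
theorem first {K : ℤ → ℤ} (hK : ∀ x, K (x + 1) = K x + 1 ∨ K (x + 1) = K x - 1) {L : ℤ}
    (hL : 1 ≤ L) (hper : ∀ x, K (x + L) = K x) {b c : ℤ} (hbc : b < c) (hc : K c = K b)
    (hle : ∀ l, b ≤ l → l ≤ c → K b ≤ K l) :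
    ∃ e, b + 1 < e ∧ e ≤ c ∧ e ≤ b + L ∧ K e = K b ∧ K (b + 1) = K b + 1 ∧ K (e - 1) = K b + 1 ∧
      ∀ l, b + 1 ≤ l → l ≤ e - 1 → K b + 1 ≤ K l := by
  classical
  set F : Finset ℤ := (Finset.Ioc b (b + L)).filter (fun e => K e = K b) with hF
  have hne : F.Nonempty := ⟨b + L, by
    rw [hF, Finset.mem_filter, Finset.mem_Ioc]
    exact ⟨by omega, hper b⟩⟩
  obtain ⟨h1, h2⟩ := Finset.mem_filter.mp (F.min'_mem hne)
  rw [Finset.mem_Ioc] at h1
  set e := F.min' hne with he
  have hmin : ∀ x, b < x → x < e → K x ≠ K b := by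
    intro x hx hxe h
    have : x ∈ F := by
      rw [hF, Finset.mem_filter, Finset.mem_Ioc]
      exact ⟨by omega, h⟩
    have := F.min'_le x this
    omega
  have hec : e ≤ c := by
    by_contra h
    push Not at h
    exact hmin c hbc h hc
  have hgt : ∀ l, b + 1 ≤ l → l ≤ e - 1 → K b + 1 ≤ K l := by
    intro l hl hl'
    have h3 := hle l (by omega) (by omega)
    have h4 := hmin l (by omega) (by omega)
    omega
  have hb1 : b + 1 ≠ e := by
    intro h
    have h3 := hK b
    rw [h, h2] at h3
    omega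
  have hK1 : K (b + 1) = K b + 1 := by
    have h3 := hK b
    have h4 := hgt (b + 1) le_rfl (by omega)
    omega
  have hK2 : K (e - 1) = K b + 1 := by
    have h3 := hK (e - 1)
    rw [sub_add_cancel, h2] at h3
    have h4 := hgt (e - 1) (by omega) le_rfl
    omega
  exact ⟨e, by omega, hec, h1.2, h2, hK1, hK2, hgt⟩

/-- the last return of a height function -/
theorem last {K : ℤ → ℤ} (hK : ∀ x, K (x + 1) = K x + 1 ∨ K (x + 1) = K x - 1) {L : ℤ}
    (hL : 1 ≤ L) (hper : ∀ x, K (x + L) = K x) {b c : ℤ} (hbc : c < b) (hc : K c = K b)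
    (hle : ∀ l, c ≤ l → l ≤ b → K b ≤ K l) :
    ∃ e, e < b - 1 ∧ c ≤ e ∧ b - L ≤ e ∧ K e = K b ∧ K (b - 1) = K b + 1 ∧ K (e + 1) = K b + 1 ∧
      ∀ l, e + 1 ≤ l → l ≤ b - 1 → K b + 1 ≤ K l := by
  have h := first (K := fun x => K (-x)) (by
    intro x
    have := hK (-(x + 1))
    rw [show -(x + 1) + 1 = -x by ring] at this
    show K (-(x + 1)) = K (-x) + 1 ∨ K (-(x + 1)) = K (-x) - 1
    omega) hL (by
    intro x
    show K (-(x + L)) = K (-x)
    have := hper (-(x + L))
    rw [show -(x + L) + L = -x by ring] at this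
    exact this.symm) (b := -b) (c := -c) (by omega) (by simp only [neg_neg]; exact hc) (by
    intro l hl hl'
    simp only [neg_neg]
    exact hle (-l) (by omega) (by omega))
  obtain ⟨e, h1, h2, h3, h4, h5, h6, h7⟩ := h
  simp only [neg_neg] at h4 h5 h6 h7
  refine ⟨-e, by omega, by omega, by omega, h4, ?_, ?_, ?_⟩
  · rw [show b - 1 = -(-b + 1) by ring]; exact h5
  · rw [show -e + 1 = -(e - 1) by ring]; exact h6
  · intro l hl hl'
    have := h7 (-l) (by omega) (by omega)
    rwa [neg_neg] at this

variable {N i : ℕ}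

theorem iso_nb {a : ℤ} (ha : iso N i a) : ¬ iso N i (a - 1) ∧ ¬ iso N i (a + 1) ∧
    sm N i (a + 1) = sm N i (a - 1) := by
  obtain ⟨k, hk⟩ := ha
  have e1 : a - 1 = (N + 2) * k + N - (N - i) := by rw [hk]; ring
  have e2 : a + 1 = (N + 2) * (k + 1) + 0 - (N - i) := by rw [hk]; ring
  refine ⟨?_, ?_, ?_⟩
  · rw [Sem4Aux.iso_iff e1 (by omega) (by omega)]
    omega
  · rw [Sem4Aux.iso_iff e2 (by omega) (by omega)]
    omega
  · unfold sm
    rw [Sem4Aux.ct_eq e1 (by omega) (by omega), Sem4Aux.ct_eq e2 (by omega) (by omega)]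
    ring

theorem sm_succ {a : ℤ} (ha : ¬ iso N i a) : sm N i (a + 1) = sm N i a + 1 := by
  obtain ⟨r, h0, h1, hr⟩ := Sem4Aux.decomp N i a
  have h2 : r ≠ N + 1 := fun h => ha ((Sem4Aux.iso_iff hr h0 h1).2 h)
  have e1 : a + 1 = (N + 2) * Sem4Aux.ct N i a + (r + 1) - (N - i) := by
    linear_combination hr
  unfold sm
  rw [Sem4Aux.ct_eq e1 (by omega) (by omega)]
  ring

theorem iso_sub {a b : ℤ} (ha : iso N i a) (hb : iso N i b) : ∃ k : ℤ, b - a = k * (N + 2) := by
  obtain ⟨k, hk⟩ := ha
  obtain ⟨l, hl⟩ := hb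
  exact ⟨l - k, by rw [hk, hl]; ring⟩

theorem not_iso_of {a b : ℤ} (ha : iso N i a) (h1 : a < b) (h2 : b < a + (N + 2)) :
    ¬ iso N i b := by
  intro hb
  obtain ⟨k, hk⟩ := iso_sub ha hb
  have h3 : (0:ℤ) < N + 2 := by omega
  rcases le_or_gt k 0 with h | h
  · nlinarith
  · nlinarith

theorem iso_add {a : ℤ} (ha : iso N i a) : iso N i (a + (N + 2)) := by
  obtain ⟨k, hk⟩ := ha
  exact ⟨k + 1, by rw [hk]; ring⟩

theorem iso_sub' {a : ℤ} (ha : iso N i a) : iso N i (a - (N + 2)) := by
  obtain ⟨k, hk⟩ := ha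
  exact ⟨k - 1, by rw [hk]; ring⟩

theorem not_iso_of' {a b : ℤ} (ha : iso N i a) (h1 : b < a) (h2 : a - (N + 2) < b) :
    ¬ iso N i b :=
  not_iso_of (iso_sub' ha) h2 (by omega)

/-- connections of `w'` survive in `cap i w'` -/
theorem factA {u w' : Word} {i : ℕ} (hi : i ≤ u.length) (hu : 1 ≤ u.length)
    (hw' : Ok w') (hl : w'.length = u.length + 2) {a b : ℤ} (ha : ¬ iso u.length i a)
    (hb : ¬ iso u.length i b) (h : Rw w' a b) :
    Rw (cap i w') (sm u.length i a) (sm u.length i b) := by
  have hact : act i w' = lins i (cap i w') := act_eq (by omega)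
  have hclen : (cap i w').length = u.length := by
    have := length_cap (i := i) (w := w') (by omega)
    omega
  have hisol : ∀ a, isol w' i a ↔ iso u.length i a := by
    intro a
    unfold isol iso
    rw [hl]
    push_cast
    rfl
  have h1 := Sem4Aux.rw_lins (u := cap i w') (i := i) (by omega) (by omega) a b
  have h2 := Rw_act (i := i) hw' (by omega) a b
  rw [hact, h1, hisol, hisol, hclen] at h2
  rcases h2.2 (Or.inr ⟨ha, hb, Relation.EqvGen.rel _ _ (Or.inl ⟨fun h' => ha ((hisol a).1 h'),
    fun h' => hb ((hisol b).1 h'), h⟩)⟩) with h3 | h3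
  · rw [h3]
    exact (Rw_equiv _).refl _
  · exact h3.2.2

/-- the height function of an even admissible word is periodic -/
theorem height {w' : Word} (hw' : Ok w') (hev : Even w'.length) (hpos : 1 ≤ w'.length) :
    ∃ K : ℤ → ℤ, Sem1Aux.Inc (sg w') K ∧
      (∀ x, K (x + 1) = K x + 1 ∨ K (x + 1) = K x - 1) ∧ ∀ x, K (x + w'.length) = K x := by
  obtain ⟨K, hK, -⟩ := Sem1Aux.exists_ht (sg w')
  have h1 : ∀ x, K (x + w'.length) - K x = K (0 + w'.length) - K 0 := by
    intro x
    have hstep : ∀ y, K (y + 1 + w'.length) - K (y + 1) = K (y + w'.length) - K y := by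
      intro y
      have e1 := hK y
      have e2 := hK (y + w'.length)
      have e3 := Sem1Aux.sg_per w' y 1
      rw [one_mul] at e3
      rw [show y + w'.length + 1 = y + 1 + (w'.length : ℤ) by ring] at e2
      rw [e1, e2, e3]
      ring
    induction x using Int.induction_on with
    | zero => rfl
    | succ n ih => rw [hstep, ih]
    | pred n ih =>
      have := hstep (-(n:ℤ) - 1)
      rw [sub_add_cancel] at this
      rw [← this, ih]
  have h2 : K (0 + w'.length) = K 0 := by
    have := Sem1Aux.ht_take hK 0 w'.length le_rfl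
    simp only [zero_mul, zero_add, List.take_length] at this
    rw [zero_add, this, Sem1Aux.lsum_count]
    unfold Ok at hw'
    rw [hw']
    obtain ⟨k, hk⟩ := hev
    omega
  refine ⟨K, hK, fun x => ?_, fun x => by have := h1 x; omega⟩
  have := hK x
  unfold sg at this
  split_ifs at this <;> omega

end Key

open Key

theorem key1 {u w' : Word} {i : ℕ} (hi : i ≤ u.length) (hu : 1 ≤ u.length) (hev : Even u.length)
    (hw' : Ok w') (hl : w'.length = u.length + 2) {b c : ℤ} (hb : iso u.length i b)
    (hc : ¬ iso u.length i c) (h : Rw w' b c) :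
    Ch (Rw (cap i w')) nb 1 (sm u.length i (b - 1)) (sm u.length i c) := by
  have hev' : Even w'.length := by
    rw [hl]; exact hev.add (by norm_num)
  obtain ⟨K, hK, hK1, hper⟩ := height hw' hev' (by omega)
  have hlen : (w'.length : ℤ) = u.length + 2 := by rw [hl]; push_cast; ring
  rw [hlen] at hper
  have key : ∀ (n : ℕ) (b : ℤ), (c - b).natAbs ≤ n → iso u.length i b → Rw w' b c →
      Ch (Rw (cap i w')) nb 1 (sm u.length i (b - 1)) (sm u.length i c) := by
    intro n
    induction n with
    | zero =>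
      intro b hn hb _
      have : c = b := by omega
      rw [this] at hc
      exact absurd hb hc
    | succ n ih =>
      intro b hn hb h
      have hne : b ≠ c := fun h' => hc (h' ▸ hb)
      rw [Sem1Aux.Rw_iff hK] at h
      obtain ⟨hbc, hle⟩ := h
      obtain ⟨hb1, hb2, hb3⟩ := iso_nb hb
      rcases lt_or_gt_of_ne hne with hlt | hlt
      · obtain ⟨e, e1, e2, e3, e4, e5, e6, e7⟩ := first hK1 (L := u.length + 2) (by omega) hper
          hlt hbc.symm (fun l hl hl' => hle l (Or.inl ⟨hl, hl'⟩))
        have r1 : Rw w' (b + 1) (e - 1) := by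
          rw [Sem1Aux.Rw_iff hK]
          exact Sem1Aux.RH.of_le (by omega) (by rw [e5, e6]) (fun l hl hl' => by
            rw [e5]; exact e7 l hl hl')
        have r2 : Rw w' e c := by
          rw [Sem1Aux.Rw_iff hK]
          exact Sem1Aux.RH.of_le e2 (by rw [e4, hbc]) (fun l hl hl' => by
            rw [e4]; exact hle l (Or.inl ⟨by omega, hl'⟩))
        rcases eq_or_lt_of_le e3 with h3 | h3
        · -- the next isolated face
          have hie : iso u.length i e := by rw [h3]; exact iso_add hb
          obtain ⟨he1, -, -⟩ := iso_nb hie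
          have f1 := factA hi hu hw' hl hb2 he1 r1
          rw [hb3] at f1
          have f2 := ih e (by omega) hie r2
          have f3 := Ch.trans (Ch.of_rel (R := Rw (cap i w')) (S := nb) (k := 0) f1) f2
          rwa [zero_add] at f3
        · have hie : ¬ iso u.length i e := not_iso_of hb (by omega) h3
          have hie1 : ¬ iso u.length i (e - 1) := not_iso_of hb (by omega) (by omega)
          have f1 := factA hi hu hw' hl hb2 hie1 r1
          rw [hb3] at f1
          have f2 := factA hi hu hw' hl hie hc r2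
          have f3 : nb (sm u.length i (e - 1)) (sm u.length i e) := by
            left
            have := sm_succ hie1
            rwa [sub_add_cancel] at this
          exact Ch.rel (Ch.step (Ch.of_rel (k := 0) f1) f3) f2
      · obtain ⟨e, e1, e2, e3, e4, e5, e6, e7⟩ := last hK1 (L := u.length + 2) (by omega) hper
          hlt hbc.symm (fun l hl hl' => hle l (Or.inr ⟨hl, hl'⟩))
        have r1 : Rw w' (b - 1) (e + 1) := by
          apply (Rw_equiv _).symm
          rw [Sem1Aux.Rw_iff hK]
          exact Sem1Aux.RH.of_le (by omega) (by rw [e5, e6]) (fun l hl hl' => by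
            rw [e6]; exact e7 l hl hl')
        have r2 : Rw w' e c := by
          apply (Rw_equiv _).symm
          rw [Sem1Aux.Rw_iff hK]
          exact Sem1Aux.RH.of_le e2 (by rw [e4, hbc]) (fun l hl hl' => by
            rw [← hbc]; exact hle l (Or.inr ⟨hl, by omega⟩))
        rcases eq_or_lt_of_le e3 with h3 | h3
        · -- the previous isolated face
          have hie : iso u.length i e := by rw [← h3]; exact iso_sub' hb
          obtain ⟨-, he1, he2⟩ := iso_nb hie
          have f1 := factA hi hu hw' hl hb1 he1 r1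
          rw [he2] at f1
          have f2 := ih e (by omega) hie r2
          have f3 := Ch.trans (Ch.of_rel (R := Rw (cap i w')) (S := nb) (k := 0) f1) f2
          rwa [zero_add] at f3
        · have hie : ¬ iso u.length i e := not_iso_of' hb (by omega) h3
          have hie1 : ¬ iso u.length i (e + 1) := not_iso_of' hb (by omega) (by omega)
          have f1 := factA hi hu hw' hl hb1 hie1 r1
          have f2 := factA hi hu hw' hl hie hc r2
          have f3 : nb (sm u.length i (e + 1)) (sm u.length i e) := by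
            right
            exact sm_succ hie
          exact Ch.rel (Ch.step (Ch.of_rel (k := 0) f1) f3) f2
  exact key _ b le_rfl hb h

theorem key2 {u w' : Word} {i : ℕ} (hi : i ≤ u.length) (hu : 1 ≤ u.length) (hev : Even u.length)
    (hw' : Ok w') (hl : w'.length = u.length + 2) {b c : ℤ} (hb : iso u.length i b)
    (hc : iso u.length i c) (h : Rw w' b c) :
    Ch (Rw (cap i w')) nb 2 (sm u.length i (b - 1)) (sm u.length i (c - 1)) := by
  have hev' : Even w'.length := by
    rw [hl]; exact hev.add (by norm_num)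
  obtain ⟨K, hK, hK1, hper⟩ := height hw' hev' (by omega)
  have hlen : (w'.length : ℤ) = u.length + 2 := by rw [hl]; push_cast; ring
  rw [hlen] at hper
  have hsymR : ∀ a b, Rw (cap i w') a b → Rw (cap i w') b a := fun _ _ h => (Rw_equiv _).symm h
  have key : ∀ (n : ℕ) (b c : ℤ), (c - b).natAbs ≤ n → b ≤ c → iso u.length i b →
      iso u.length i c → Rw w' b c →
      Ch (Rw (cap i w')) nb 2 (sm u.length i (b - 1)) (sm u.length i (c - 1)) := by
    intro n
    induction n with
    | zero =>
      intro b c hn _ _ _ _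
      have : c = b := by omega
      rw [this]
      exact Ch.refl _ _
    | succ n ih =>
      intro b c hn hbc' hb hc h
      rcases eq_or_lt_of_le hbc' with heq | hlt
      · rw [heq]
        exact Ch.refl _ _
      have h' := h
      rw [Sem1Aux.Rw_iff hK] at h
      obtain ⟨hbc, hle⟩ := h
      obtain ⟨hb1, hb2, hb3⟩ := iso_nb hb
      obtain ⟨e, e1, e2, e3, e4, e5, e6, e7⟩ := first hK1 (L := u.length + 2) (by omega) hper
        hlt hbc.symm (fun l hl hl' => hle l (Or.inl ⟨hl, hl'⟩))
      have r1 : Rw w' (b + 1) (e - 1) := by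
        rw [Sem1Aux.Rw_iff hK]
        exact Sem1Aux.RH.of_le (by omega) (by rw [e5, e6]) (fun l hl hl' => by
          rw [e5]; exact e7 l hl hl')
      have r2 : Rw w' e c := by
        rw [Sem1Aux.Rw_iff hK]
        exact Sem1Aux.RH.of_le e2 (by rw [e4, hbc]) (fun l hl hl' => by
          rw [e4]; exact hle l (Or.inl ⟨by omega, hl'⟩))
      rcases eq_or_lt_of_le e3 with h3 | h3
      · have hie : iso u.length i e := by rw [h3]; exact iso_add hb
        obtain ⟨he1, -, -⟩ := iso_nb hie
        have f1 := factA hi hu hw' hl hb2 he1 r1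
        rw [hb3] at f1
        have f2 := ih e c (by omega) e2 hie hc r2
        have f3 := Ch.trans (Ch.of_rel (R := Rw (cap i w')) (S := nb) (k := 0) f1) f2
        rwa [zero_add] at f3
      · have hie : ¬ iso u.length i e := not_iso_of hb (by omega) h3
        have r3 : Rw w' b e := (Rw_equiv _).trans h' ((Rw_equiv _).symm r2)
        have f1 := key1 hi hu hev hw' hl hb hie r3
        have f2 := key1 hi hu hev hw' hl hc hie ((Rw_equiv _).symm r2)
        exact Ch.trans f1 (Ch.symm hsymR (fun _ _ h => nb_symm h) f2)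
  rcases le_total b c with hbc | hbc
  · exact key _ b c le_rfl hbc hb hc h
  · exact Ch.symm hsymR (fun _ _ h => nb_symm h) (key _ c b le_rfl hbc hc hb
      ((Rw_equiv _).symm h))

end Pool.Agent.H863R2.Nest
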