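import Pool.Agent.H863R2.Nest.ColCore
import Pool.Agent.H863R2.Nest.Key

/-!
# Module Col: collapsing an arc
-/

namespace Pool.Agent.H863R2.Nest
open Pool.Agent.H863R2.Cyl
open Pool.Agent.H863R2.Cyl.Sem4Aux (sm iso sec)
open Pool.Agent.H988R2.Perc (Word)

theorem collapse {u w' : Word} {i : ℕ} (hi : i ≤ u.length) (hu : 1 ≤ u.length)
    (hev : Even u.length) (hw' : Ok w') (hl : w'.length = u.length + 2) (k : ℕ) :
    Ch (R2 w' (lins i u)) nb k 0 (u.length + 2) ↔ Ch (R2 (cap i w') u) nb k 0 u.length :=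
  collapse_of hi hu hev hw' hl (fun hb hc h => key1 hi hu hev hw' hl hb hc h)
    (fun hb hc h => key2 hi hu hev hw' hl hb hc h) k

end Pool.Agent.H863R2.Nest
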