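import Pool.Agent.H863R2.Nest.Defs

/-!
# Module Col: collapsing an arc
-/

namespace Pool.Agent.H863R2.Nest
open Pool.Agent.H863R2.Cyl
open Pool.Agent.H863R2.Cyl.Sem4Aux (sm iso sec ct iso_iff ct_eq decomp rw_lins sec_spec sm_zero
  sm_last)
open Pool.Agent.H988R2.Perc (Word)

namespace ColAux

theorem iso_nb {N i : ℕ} {a : ℤ} (ha : iso N i a) : ¬ iso N i (a - 1) ∧ ¬ iso N i (a + 1) ∧
    sm N i (a + 1) = sm N i (a - 1) := by
  obtain ⟨k, hk⟩ := ha
  have e1 : a - 1 = (N + 2) * k + N - (N - i) := by rw [hk]; ring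
  have e2 : a + 1 = (N + 2) * (k + 1) + 0 - (N - i) := by rw [hk]; ring
  refine ⟨?_, ?_, ?_⟩
  · rw [iso_iff e1 (by omega) (by omega)]
    omega
  · rw [iso_iff e2 (by omega) (by omega)]
    omega
  · unfold sm
    rw [ct_eq e1 (by omega) (by omega), ct_eq e2 (by omega) (by omega)]
    ring

theorem iso_two {N i : ℕ} (hN : 1 ≤ N) {a : ℤ} (ha : iso N i a) : ¬ iso N i (a + 2) := by
  obtain ⟨k, hk⟩ := ha
  have e2 : a + 2 = (N + 2) * (k + 1) + 1 - (N - i) := by rw [hk]; ring
  rw [iso_iff e2 (by omega) (by omega)]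
  omega

theorem sm_succ {N i : ℕ} {a : ℤ} (ha : ¬ iso N i a) (_ha1 : ¬ iso N i (a + 1)) :
    sm N i (a + 1) = sm N i a + 1 := by
  obtain ⟨r, hr0, hr1, hr⟩ := decomp N i a
  have h1 : r ≠ N + 1 := fun h => ha ((iso_iff hr hr0 hr1).2 h)
  have e1 : a + 1 = (N + 2) * ct N i a + (r + 1) - (N - i) := by
    nth_rewrite 1 [hr]
    ring
  unfold sm
  rw [ct_eq e1 (by omega) (by omega)]
  ring

theorem isol_iff {w' : Word} {N i : ℕ} (hl : w'.length = N + 2) (a : ℤ) :
    isol w' i a ↔ iso N i a := by
  unfold isol iso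
  rw [hl]
  push_cast
  rfl

/-- connections of `cap i w'` -/
theorem hcap {w' : Word} {N i : ℕ} (hi : i ≤ N) (hN : 1 ≤ N) (hw' : Ok w')
    (hl : w'.length = N + 2) (a b : ℤ) (ha : ¬ iso N i a) (hb : ¬ iso N i b) :
    Rw (cap i w') (sm N i a) (sm N i b) ↔
      Relation.EqvGen (fun x y => (¬ isol w' i x ∧ ¬ isol w' i y ∧ Rw w' x y) ∨
        ∃ k : ℤ, x = i + k * w'.length ∧ y = i + 2 + k * w'.length) a b := by
  have hact : act i w' = lins i (cap i w') := act_eq (by omega)
  have hclen : (cap i w').length = N := by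
    have := length_cap (i := i) (w := w') (by omega)
    omega
  have h1 := rw_lins (u := cap i w') (i := i) (by omega) (by omega) a b
  have h2 := Rw_act (i := i) hw' (by omega) a b
  rw [hact, h1, isol_iff hl, isol_iff hl, hclen] at h2
  constructor
  · intro h
    rcases h2.1 (Or.inr ⟨ha, hb, h⟩) with h3 | h3
    · rw [h3]
      exact Relation.EqvGen.refl _
    · exact h3.2.2
  · intro h
    rcases h2.2 (Or.inr ⟨ha, hb, h⟩) with h3 | h3
    · rw [h3]
      exact (Rw_equiv _).refl _
    · exact h3.2.2

/-- connections of `w'` give connections of `cap i w'` -/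
theorem hW {w' : Word} {N i : ℕ} (hi : i ≤ N) (hN : 1 ≤ N) (hw' : Ok w')
    (hl : w'.length = N + 2) {a b : ℤ} (ha : ¬ iso N i a) (hb : ¬ iso N i b) (h : Rw w' a b) :
    Rw (cap i w') (sm N i a) (sm N i b) := by
  rw [hcap hi hN hw' hl a b ha hb]
  apply Relation.EqvGen.rel
  left
  rw [isol_iff hl, isol_iff hl]
  exact ⟨ha, hb, h⟩

/-- equal values of the collapsing map -/
theorem hsec {u : Word} {i : ℕ} (hi : i ≤ u.length) (hu : 1 ≤ u.length) {a b : ℤ}
    (ha : ¬ iso u.length i a) (hb : ¬ iso u.length i b)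
    (hab : sm u.length i a = sm u.length i b) : Rw (lins i u) a b := by
  rw [rw_lins hi hu]
  right
  refine ⟨ha, hb, ?_⟩
  rw [hab]
  exact (Rw_equiv _).refl _

/-- connections of `cap i w'` give free chains -/
theorem hgen {u w' : Word} {i : ℕ} (hi : i ≤ u.length) (hu : 1 ≤ u.length) (hw' : Ok w')
    (hl : w'.length = u.length + 2) {a b : ℤ} (ha : ¬ iso u.length i a) (hb : ¬ iso u.length i b)
    (h : Rw (cap i w') (sm u.length i a) (sm u.length i b)) :
    Ch (R2 w' (lins i u)) nb 0 a b := by
  rw [hcap hi hu hw' hl a b ha hb] at h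
  apply Ch.of_eqv (fun _ _ h => R2_symm h)
  clear ha hb
  induction h with
  | rel a b h =>
    apply Relation.EqvGen.rel
    rcases h with h | ⟨k, h1, h2⟩
    · exact Or.inl h.2.2
    · right
      have e1 : a = ((u.length : ℤ) + 2) * k + u.length - (u.length - i) := by
        rw [h1, hl]; push_cast; ring
      have e2 : b = ((u.length : ℤ) + 2) * (k + 1) + 0 - (u.length - i) := by
        rw [h2, hl]; push_cast; ring
      refine hsec hi hu ?_ ?_ ?_
      · rw [iso_iff e1 (by omega) (by omega)]
        omega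
      · rw [iso_iff e2 (by omega) (by omega)]
        omega
      · unfold sm
        rw [ct_eq e1 (by omega) (by omega), ct_eq e2 (by omega) (by omega), e1, e2]
        ring
  | refl a => exact Relation.EqvGen.refl _
  | symm a b _ ih => exact Relation.EqvGen.symm _ _ ih
  | trans a b c _ _ ih1 ih2 => exact Relation.EqvGen.trans _ _ _ ih1 ih2

/-- chains with fewer free moves -/
theorem Ch.mono_rel {X : Type*} {R R' S : X → X → Prop} (hR : ∀ a b, R a b → R' a b) {k : ℕ}
    {a b : X} (h : Ch R S k a b) : Ch R' S k a b := by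
  induction h with
  | refl k a => exact Ch.refl _ _
  | rel _ hr ih => exact Ch.rel ih (hR _ _ hr)
  | step _ hs ih => exact Ch.step ih hs

end ColAux

open ColAux

theorem collapse_of {u w' : Word} {i : ℕ} (hi : i ≤ u.length) (hu : 1 ≤ u.length)
    (hev : Even u.length) (hw' : Ok w') (hl : w'.length = u.length + 2)
    (key1 : ∀ {b c : ℤ}, iso u.length i b → ¬ iso u.length i c → Rw w' b c →
      Ch (Rw (cap i w')) nb 1 (sm u.length i (b - 1)) (sm u.length i c))
    (key2 : ∀ {b c : ℤ}, iso u.length i b → iso u.length i c → Rw w' b c →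
      Ch (Rw (cap i w')) nb 2 (sm u.length i (b - 1)) (sm u.length i (c - 1))) (k : ℕ) :
    Ch (R2 w' (lins i u)) nb k 0 (u.length + 2) ↔ Ch (R2 (cap i w') u) nb k 0 u.length := by
  set N := u.length with hN
  set s := sm N i with hs
  have n0 : ¬ iso N i 0 := by
    rw [iso_iff (q := 0) (r := N - i) (by ring) (by omega) (by omega)]
    omega
  have nl : ¬ iso N i (N + 2) := by
    rw [iso_iff (q := 1) (r := N - i) (by ring) (by omega) (by omega)]
    omega
  have hup : ∀ {k : ℕ} {a b : ℤ}, Ch (Rw (cap i w')) nb k a b →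
      Ch (R2 (cap i w') u) nb k a b := fun h => ColAux.Ch.mono_rel (fun _ _ h => Or.inl h) h
  constructor
  · intro h
    have key : ∀ (k : ℕ) (z0 z : ℤ), Ch (R2 w' (lins i u)) nb k z0 z → z0 = 0 →
        (¬ iso N i z → Ch (R2 (cap i w') u) nb k 0 (s z)) ∧
        (iso N i z → (∃ b', ¬ iso N i b' ∧ Rw w' b' z ∧ Ch (R2 (cap i w') u) nb k 0 (s b')) ∨
          ∃ j b'', k = j + 1 ∧ iso N i b'' ∧ Rw w' b'' z ∧
            Ch (R2 (cap i w') u) nb j 0 (s (b'' - 1))) := by
      intro k z0 z hch
      induction hch with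
      | refl k a =>
        rintro rfl
        refine ⟨fun _ => ?_, fun h => absurd h n0⟩
        have e0 : s 0 = 0 := sm_zero hi
        rw [e0]
        exact Ch.refl _ _
      | @rel k a b c hab hbc ih =>
        intro h0
        obtain ⟨ih1, ih2⟩ := ih h0
        rcases hbc with hbc | hbc
        · refine ⟨fun hc => ?_, fun hc => ?_⟩
          · by_cases hb : iso N i b
            · rcases ih2 hb with ⟨b', h1, h2, h3⟩ | ⟨j, b'', h1, h2, h3, h4⟩
              · exact Ch.rel h3 (Or.inl (hW hi hu hw' hl h1 hc ((Rw_equiv _).trans h2 hbc)))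
              · have := key1 h2 hc ((Rw_equiv _).trans h3 hbc)
                rw [h1]
                exact h4.trans (hup this)
            · exact Ch.rel (ih1 hb) (Or.inl (hW hi hu hw' hl hb hc hbc))
          · by_cases hb : iso N i b
            · rcases ih2 hb with ⟨b', h1, h2, h3⟩ | ⟨j, b'', h1, h2, h3, h4⟩
              · exact Or.inl ⟨b', h1, (Rw_equiv _).trans h2 hbc, h3⟩
              · exact Or.inr ⟨j, b'', h1, h2, (Rw_equiv _).trans h3 hbc, h4⟩
            · exact Or.inl ⟨b, hb, hbc, ih1 hb⟩
        · rw [rw_lins hi hu] at hbc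
          rcases hbc with rfl | ⟨h1, h2, h3⟩
          · exact ⟨ih1, ih2⟩
          · exact ⟨fun _ => Ch.rel (ih1 h1) (Or.inr h3), fun hc => absurd hc h2⟩
      | @step k a b c hab hbc ih =>
        intro h0
        obtain ⟨ih1, ih2⟩ := ih h0
        by_cases hb : iso N i b
        · -- `c` is not isolated and `s c = s (b - 1)`
          obtain ⟨q1, q2, q3⟩ := iso_nb hb
          have hc : ¬ iso N i c ∧ s c = s (b - 1) := by
            rcases hbc with h | h
            · rw [h]
              exact ⟨q2, q3⟩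
            · have : c = b - 1 := by omega
              rw [this]
              exact ⟨q1, rfl⟩
          refine ⟨fun _ => ?_, fun h => absurd h hc.1⟩
          rw [hc.2]
          rcases ih2 hb with ⟨b', h1, h2, h3⟩ | ⟨j, b'', h1, h2, h3, h4⟩
          · have h5 := key1 hb h1 ((Rw_equiv _).symm h2)
            exact h3.trans ((hup h5).symm (fun _ _ h => R2_symm h) (fun _ _ h => nb_symm h))
          · have h5 := key2 h2 hb h3
            have h6 := h4.trans (hup h5)
            rw [h1]
            exact h6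
        · by_cases hc : iso N i c
          · obtain ⟨q1, q2, q3⟩ := iso_nb hc
            refine ⟨fun h => absurd hc h, fun _ => Or.inr ⟨k, c, rfl, hc, (Rw_equiv _).refl _, ?_⟩⟩
            have : s b = s (c - 1) := by
              rcases hbc with h | h
              · have : b = c - 1 := by omega
                rw [this]
              · rw [h]
                exact q3
            rw [← this]
            exact ih1 hb
          · refine ⟨fun _ => ?_, fun h => absurd h hc⟩
            refine Ch.step (ih1 hb) ?_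
            rcases hbc with h | h
            · left
              subst h
              exact sm_succ hb hc
            · right
              subst h
              exact sm_succ hc hb
    have h1 := (key k 0 _ h rfl).1 nl
    have e1 : s (N + 2) = N := sm_last hi
    rwa [e1] at h1
  · intro h
    have hN2 : 2 ≤ N := by
      obtain ⟨r, hr⟩ := hev
      omega
    have hstep : ∀ x : ℤ, Ch (R2 w' (lins i u)) nb 1 (sec N i x) (sec N i (x + 1)) := by
      intro x
      obtain ⟨t1, t2⟩ := sec_spec (i := i) hu x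
      obtain ⟨t3, t4⟩ := sec_spec (i := i) hu (x + 1)
      by_cases h1 : iso N i (sec N i x + 1)
      · obtain ⟨q1, q2, q3⟩ := iso_nb h1
        rw [add_sub_cancel_right] at q3
        have h3 : ¬ iso N i (sec N i x + 1 + 1 + 1) := by
          have := iso_two hu h1
          rwa [show sec N i x + 1 + 1 + 1 = sec N i x + 1 + 2 by ring]
        have e3 := sm_succ q2 h3
        have c1 : Ch (R2 w' (lins i u)) nb 0 (sec N i x) (sec N i x + 1 + 1) :=
          Ch.of_rel (Or.inr (hsec hi hu t1 q2 q3.symm))
        have c2 : Ch (R2 w' (lins i u)) nb 1 (sec N i x) (sec N i x + 1 + 1 + 1) :=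
          Ch.step c1 (Or.inl rfl)
        exact Ch.rel c2 (Or.inr (hsec hi hu h3 t3 (by rw [e3, q3, t2, t4])))
      · have e3 := sm_succ t1 h1
        have c2 : Ch (R2 w' (lins i u)) nb 1 (sec N i x) (sec N i x + 1) :=
          Ch.step (Ch.refl 0 _) (Or.inl rfl)
        exact Ch.rel c2 (Or.inr (hsec hi hu h1 t3 (by rw [e3, t2, t4])))
    have h1 : Ch (R2 w' (lins i u)) nb k (sec N i 0) (sec N i N) := by
      refine Ch.map (sec N i) ?_ ?_ h
      · intro a b hab
        obtain ⟨t1, t2⟩ := sec_spec (i := i) hu a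
        obtain ⟨t3, t4⟩ := sec_spec (i := i) hu b
        rcases hab with hab | hab
        · exact hgen hi hu hw' hl t1 t3 (by rw [t2, t4]; exact hab)
        · apply Ch.of_rel
          right
          rw [rw_lins hi hu]
          right
          refine ⟨t1, t3, ?_⟩
          rw [t2, t4]
          exact hab
      · intro a b hab
        rcases hab with rfl | rfl
        · exact hstep a
        · exact (hstep b).symm (fun _ _ h => R2_symm h) (fun _ _ h => nb_symm h)
    obtain ⟨t1, t2⟩ := sec_spec (i := i) hu 0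
    obtain ⟨t3, t4⟩ := sec_spec (i := i) hu N
    have h2 : Rw (lins i u) 0 (sec N i 0) := hsec hi hu n0 t1 (by rw [t2]; exact sm_zero hi)
    have h3 : Rw (lins i u) (sec N i N) (N + 2) :=
      hsec hi hu t3 nl (by rw [t4]; exact (sm_last hi).symm)
    have h4 : Ch (R2 w' (lins i u)) nb (0 + k) 0 (sec N i N) :=
      Ch.trans (Ch.of_rel (Or.inr h2)) h1
    rw [zero_add] at h4
    exact Ch.rel h4 (Or.inr h3)

end Pool.Agent.H863R2.Nest
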