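import Pool.Agent.H863R2.Cyl.Sem4
import Pool.Agent.H863R2.Cyl.Sem3

/-!
# Nesting: chains with a bounded number of colour changes (definitions and basic lemmas)
-/

namespace Pool.Agent.H863R2.Nest
open Pool.Agent.H863R2.Cyl
open Pool.Agent.H988R2.Perc (Word)

/-- chains with AT MOST `k` steps: free moves `R`, steps `S` (each costs 1) -/
inductive Ch {X : Type*} (R S : X → X → Prop) : ℕ → X → X → Prop
  | refl (k : ℕ) (a : X) : Ch R S k a a
  | rel {k : ℕ} {a b c : X} : Ch R S k a b → R b c → Ch R S k a c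
  | step {k : ℕ} {a b c : X} : Ch R S k a b → S b c → Ch R S (k + 1) a c

section basic
variable {X Y : Type*} {R R' S S' : X → X → Prop}

theorem Ch.succ {k : ℕ} {a b : X} (h : Ch R S k a b) : Ch R S (k + 1) a b := by
  induction h with
  | refl k a => exact Ch.refl _ _
  | rel _ h ih => exact Ch.rel ih h
  | step _ h ih => exact Ch.step ih h

theorem Ch.mono {k l : ℕ} {a b : X} (h : Ch R S k a b) (hkl : k ≤ l) : Ch R S l a b := by
  induction l, hkl using Nat.le_induction with
  | base => exact h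
  | succ l _ ih => exact ih.succ

theorem Ch.trans {k l : ℕ} {a b c : X} (h : Ch R S k a b) (h' : Ch R S l b c) :
    Ch R S (k + l) a c := by
  induction h' with
  | refl l b => exact h.mono (Nat.le_add_right _ _)
  | rel _ hr ih => exact Ch.rel (ih h) hr
  | step _ hs ih => exact Ch.step (ih h) hs

theorem Ch.of_rel {k : ℕ} {a b : X} (h : R a b) : Ch R S k a b := Ch.rel (Ch.refl k a) h

theorem Ch.of_step {k : ℕ} {a b : X} (h : S a b) : Ch R S (k + 1) a b := Ch.step (Ch.refl k a) h

theorem Ch.symm (hR : ∀ a b, R a b → R b a) (hS : ∀ a b, S a b → S b a) {k : ℕ} {a b : X}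
    (h : Ch R S k a b) : Ch R S k b a := by
  induction h with
  | refl k a => exact Ch.refl _ _
  | @rel k a b c _ hr ih =>
    have := Ch.trans (Ch.of_rel (R := R) (S := S) (k := 0) (hR _ _ hr)) ih
    rwa [zero_add] at this
  | @step k a b c _ hs ih =>
    have := Ch.trans (Ch.of_step (R := R) (S := S) (k := 0) (hS _ _ hs)) ih
    rwa [zero_add, add_comm] at this

theorem Ch.of_eqv (hR : ∀ a b, R a b → R b a) {k : ℕ} {a b : X}
    (h : Relation.EqvGen R a b) : Ch R S k a b := by
  have key : Ch R S 0 a b ∧ Ch R S 0 b a := by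
    induction h with
    | rel x y h => exact ⟨Ch.of_rel h, Ch.of_rel (hR _ _ h)⟩
    | refl x => exact ⟨Ch.refl _ _, Ch.refl _ _⟩
    | symm x y _ ih => exact ⟨ih.2, ih.1⟩
    | trans x y z _ _ h1 h2 => exact ⟨by simpa using h1.1.trans h2.1, by simpa using h2.2.trans h1.2⟩
  exact key.1.mono (Nat.zero_le _)

theorem Ch.eqv_zero {a b : X} (h : Ch R S 0 a b) : Relation.EqvGen R a b := by
  generalize hk : 0 = k at h
  induction h with
  | refl k a => exact Relation.EqvGen.refl _
  | rel _ hr ih => exact Relation.EqvGen.trans _ _ _ (ih hk) (Relation.EqvGen.rel _ _ hr)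
  | step _ _ _ => omega

/-- map a chain: free moves become free chains, steps become chains of cost `1` -/
theorem Ch.map {RY SY : Y → Y → Prop} (g : X → Y)
    (hR : ∀ a b, R a b → Ch RY SY 0 (g a) (g b)) (hS : ∀ a b, S a b → Ch RY SY 1 (g a) (g b))
    {k : ℕ} {a b : X} (h : Ch R S k a b) : Ch RY SY k (g a) (g b) := by
  induction h with
  | refl k a => exact Ch.refl _ _
  | rel _ hr ih => exact ih.trans (hR _ _ hr)
  | step _ hs ih => exact ih.trans (hS _ _ hs)

end basic

/-- neighbours in `ℤ` -/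
def nb (a b : ℤ) : Prop := b = a + 1 ∨ a = b + 1

theorem nb_symm {a b : ℤ} (h : nb a b) : nb b a := h.symm

/-- the free moves of two words glued along the seam line -/
def R2 (w' w : Word) (a b : ℤ) : Prop := Rw w' a b ∨ Rw w a b

theorem R2_symm {w' w : Word} {a b : ℤ} (h : R2 w' w a b) : R2 w' w b a := by
  rcases h with h | h
  · exact Or.inl ((Rw_equiv _).symm h)
  · exact Or.inr ((Rw_equiv _).symm h)

/-! ## the lattice: faces `(a, s)`, `s` = level -/

/-- two faces which share a corner of a plaquette and have different colours -/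
def St (p q : ℤ × ℤ) : Prop := (p.2 = q.2 ∧ nb p.1 q.1) ∨ (p.1 = q.1 ∧ nb p.2 q.2)

/-- steps at levels `≥ s` -/
def StG (s : ℤ) (p q : ℤ × ℤ) : Prop := s ≤ p.2 ∧ s ≤ q.2 ∧ St p q

/-- steps at levels between `s` and `s'` -/
def StI (s s' : ℤ) (p q : ℤ × ℤ) : Prop :=
  (s ≤ p.2 ∧ p.2 ≤ s') ∧ (s ≤ q.2 ∧ q.2 ≤ s') ∧ St p q

/-- the links of the row of plaquettes between the levels `t` and `t+1` (lower face first) -/
def lk {m : ℕ} (c : Fin (m + 1) → Bool) (t : ℤ) (p q : ℤ × ℤ) : Prop :=
  p.2 = t ∧ q.2 = t + 1 ∧ ((q.1 = p.1 + 1 ∧ cl c p.1 = false) ∨ (p.1 = q.1 + 1 ∧ cl c q.1 = true))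

/-- symmetric version -/
def lks {m : ℕ} (c : Fin (m + 1) → Bool) (t : ℤ) (p q : ℤ × ℤ) : Prop := lk c t p q ∨ lk c t q p

/-- the connections of the word `w` at the level `t` -/
def at_ (w : Word) (t : ℤ) (p q : ℤ × ℤ) : Prop := p.2 = t ∧ q.2 = t ∧ Rw w p.1 q.1

/-- mirror image -/
def mir (p : ℤ × ℤ) : ℤ × ℤ := (p.1, -p.2)

/-- free moves of the two-sided lattice: `M` rows below the seam line (level `0`), started at the
level `-M` with the word `w`, and `M'` rows above it (built from the level `M'` downwards with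
the word `w'`) -/
def Full {m : ℕ} (c c' : ℕ → Fin (m + 1) → Bool) (M M' : ℕ) (w w' : Word) (p q : ℤ × ℤ) : Prop :=
  at_ w (-M) p q ∨ (∃ t : ℕ, t < M ∧ lks (c t) (-M + t) p q) ∨
  at_ w' (-M') (mir p) (mir q) ∨ (∃ t : ℕ, t < M' ∧ lks (c' t) (-M' + t) (mir p) (mir q))

end Pool.Agent.H863R2.Nest
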