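import Pool.Agent.H863R2.Nest.Defs
import Pool.Agent.H863R2.Cyl.Lst2

/-!
# Module Seam: chains across a small arc over the seam
-/

namespace Pool.Agent.H863R2.Nest
open Pool.Agent.H863R2.Cyl
open Pool.Agent.H863R2.Cyl.Sem4Aux (sm iso sec ct ct_eq decomp iso_iff rw_lins sec_spec sm_zero
  rw_peak sg_mul)
open Pool.Agent.H988R2.Perc (Word)

namespace SeamAux

theorem Rw_seam (u : Word) (a b : ℤ) :
    Rw (seam u) (a + 1) (b + 1) ↔ Rw (lins u.length u) a b := by
  rw [← rotr_lins_last]
  refine Rw_rotr _ ?_ a b
  intro h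
  have := congrArg List.length h
  simp [lins, Pool.Agent.H988R2.Perc.length_ins] at this

theorem not_iso_succ {N : ℕ} {a : ℤ} (h : iso N N a) : ¬ iso N N (a + 1) := by
  obtain ⟨k, hk⟩ := h
  have e2 : a + 1 = (N + 2) * (k + 1) + 0 - (N - N) := by rw [hk]; ring
  rw [iso_iff e2 (by omega) (by omega)]
  omega

theorem not_iso_pred {N : ℕ} {a : ℤ} (h : iso N N a) : ¬ iso N N (a - 1) := by
  obtain ⟨k, hk⟩ := h
  have e1 : a - 1 = (N + 2) * k + N - (N - N) := by rw [hk]; ring
  rw [iso_iff e1 (by omega) (by omega)]
  omega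

theorem sm_iso {N : ℕ} {a : ℤ} (h : iso N N a) : sm N N (a + 1) = sm N N (a - 1) := by
  obtain ⟨k, hk⟩ := h
  have e1 : a - 1 = (N + 2) * k + N - (N - N) := by rw [hk]; ring
  have e2 : a + 1 = (N + 2) * (k + 1) + 0 - (N - N) := by rw [hk]; ring
  unfold sm
  rw [ct_eq e1 (by omega) (by omega), ct_eq e2 (by omega) (by omega)]
  ring

theorem sm_succ {N : ℕ} {a : ℤ} (h : ¬ iso N N a) (h' : ¬ iso N N (a + 1)) :
    sm N N (a + 1) = sm N N a + 1 := by
  obtain ⟨r, hr0, hr1, hr⟩ := decomp N N a
  set q := ct N N a with hq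
  have h1 : r ≠ N + 1 := fun e => h ((iso_iff hr hr0 hr1).2 e)
  have h2 : r ≠ N := by
    intro e
    refine h' ((iso_iff (q := q) (r := N + 1) (by rw [hr, e]; ring) (by omega) (by omega)).2 rfl)
  have e1 : a + 1 = (N + 2) * q + (r + 1) - (N - N) := by rw [hr]; ring
  unfold sm
  rw [ct_eq e1 (by omega) (by omega), ← hq]
  ring

theorem sec_succ {N : ℕ} (hN : 1 ≤ N) (x : ℤ) : ¬ iso N N (sec N N x + 1) := by
  have h1 := Int.mul_ediv_add_emod (x + ((N : ℤ) - N)) N
  have h2 := Int.emod_nonneg (x + ((N : ℤ) - N)) (show (N : ℤ) ≠ 0 by omega)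
  have h3 := Int.emod_lt_of_pos (x + ((N : ℤ) - N)) (show (0 : ℤ) < N by omega)
  unfold sec
  set q := (x + ((N : ℤ) - N)) / N
  set r := (x + ((N : ℤ) - N)) % N
  have h4 : x + 2 * q + 1 = (N + 2) * q + (r + 1) - (N - N) := by
    have : ((N : ℤ) + 2) * q = N * q + 2 * q := by ring
    omega
  rw [iso_iff h4 (by omega) (by omega)]
  omega

theorem iso_neg_one (N : ℕ) : iso N N (-1) := ⟨-1, by ring⟩

theorem iso_last (N : ℕ) : iso N N (N + 1) := ⟨0, by ring⟩

theorem sm_N (N : ℕ) : sm N N N = N := by
  unfold sm
  rw [ct_eq (q := 0) (r := N) (by ring) (by omega) (by omega)]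
  ring

/-- the shifted form -/
theorem core {u u' : Word} (hl : u'.length = u.length) (hu : 1 ≤ u.length) (k : ℕ) :
    Ch (R2 (lins u.length u') (lins u.length u)) nb k (-1) (u.length + 1) ↔
      ∃ j, k = j + 2 ∧ Ch (R2 u' u) nb j 0 u.length := by
  set N := u.length with hN
  have hR : ∀ a b, R2 (lins N u') (lins N u) a b ↔ a = b ∨
      (¬ iso N N a ∧ ¬ iso N N b ∧ R2 u' u (sm N N a) (sm N N b)) := by
    intro a b
    unfold R2
    have e1 := rw_lins (u := u') (i := N) (by omega) (by omega) a b
    have e2 := rw_lins (u := u) (i := N) (by omega) (by omega) a b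
    rw [hl] at e1
    rw [e1, e2]
    tauto
  have n0 : ¬ iso N N 0 := by
    have := not_iso_succ (iso_neg_one N)
    simpa using this
  have nN : ¬ iso N N N := by
    have := not_iso_pred (iso_last N)
    simpa using this
  constructor
  · intro h
    have key : ∀ k a z, Ch (R2 (lins N u') (lins N u)) nb k a z → a = -1 →
        (z = -1 ∨ (¬ iso N N z ∧ ∃ j, k = j + 1 ∧ Ch (R2 u' u) nb j 0 (sm N N z)) ∨
          (iso N N z ∧ z ≠ -1 ∧ ∃ j, k = j + 2 ∧ Ch (R2 u' u) nb j 0 (sm N N (z - 1)))) := by
      intro k a z h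
      induction h with
      | refl k a =>
        intro ha
        exact Or.inl ha
      | @rel k a b c hab hbc ih =>
        intro ha
        rw [hR] at hbc
        rcases hbc with rfl | ⟨h1, h2, h3⟩
        · exact ih ha
        · rcases ih ha with rfl | ⟨-, j, hj, hc⟩ | ⟨h4, -⟩
          · exact absurd (iso_neg_one N) h1
          · exact Or.inr (Or.inl ⟨h2, j, hj, Ch.rel hc h3⟩)
          · exact absurd h4 h1
      | @step k a b c hab hbc ih =>
        intro ha
        rcases ih ha with rfl | ⟨h1, j, hj, hc⟩ | ⟨h1, h2, j, hj, hc⟩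
        · -- from the isolated face -1
          have h3 : ¬ iso N N c ∧ sm N N c = 0 := by
            rcases hbc with h | h
            · have : c = 0 := by omega
              rw [this]
              exact ⟨n0, sm_zero (le_refl N)⟩
            · have : c = -1 - 1 := by omega
              rw [this]
              refine ⟨not_iso_pred (iso_neg_one N), ?_⟩
              rw [← sm_iso (iso_neg_one N)]
              simpa using sm_zero (le_refl N)
          refine Or.inr (Or.inl ⟨h3.1, k, rfl, ?_⟩)
          rw [h3.2]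
          exact Ch.refl _ _
        · by_cases hc' : iso N N c
          · by_cases hc1 : c = -1
            · exact Or.inl hc1
            · refine Or.inr (Or.inr ⟨hc', hc1, j, by omega, ?_⟩)
              have : sm N N (c - 1) = sm N N b := by
                rcases hbc with h | h
                · rw [h]
                  congr 1
                  ring
                · rw [← sm_iso hc', h]
              rw [this]
              exact hc
          · refine Or.inr (Or.inl ⟨hc', j + 1, by omega, Ch.step hc ?_⟩)
            rcases hbc with h | h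
            · left
              rw [h] at hc' ⊢
              exact sm_succ h1 hc'
            · right
              rw [h] at h1 ⊢
              exact sm_succ hc' h1
        · have h3 : ¬ iso N N c ∧ sm N N c = sm N N (b - 1) := by
            rcases hbc with h | h
            · rw [h]
              exact ⟨not_iso_succ h1, sm_iso h1⟩
            · have : c = b - 1 := by omega
              rw [this]
              exact ⟨not_iso_pred h1, rfl⟩
          refine Or.inr (Or.inl ⟨h3.1, j + 2, by omega, ?_⟩)
          rw [h3.2]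
          exact hc.mono (by omega)
    rcases key _ _ _ h rfl with h1 | ⟨h1, -⟩ | ⟨-, -, j, hj, hc⟩
    · omega
    · exact absurd (iso_last N) h1
    · refine ⟨j, hj, ?_⟩
      rw [add_sub_cancel_right, sm_N] at hc
      exact hc
  · rintro ⟨j, rfl, hc⟩
    have hsec : ∀ {k : ℕ} (a b : ℤ), ¬ iso N N a → ¬ iso N N b → sm N N a = sm N N b →
        Ch (R2 (lins N u') (lins N u)) nb k a b := by
      intro k a b ha hb hab
      refine Ch.of_rel ((hR a b).2 (Or.inr ⟨ha, hb, ?_⟩))
      rw [hab]
      exact Or.inl ((Rw_equiv _).refl _)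
    have hup : ∀ x : ℤ, Ch (R2 (lins N u') (lins N u)) nb 1 (sec N N x) (sec N N (x + 1)) := by
      intro x
      obtain ⟨t1, t2⟩ := sec_spec (i := N) hu x
      obtain ⟨t3, t4⟩ := sec_spec (i := N) hu (x + 1)
      have h1 : Ch (R2 (lins N u') (lins N u)) nb (0 + 1) (sec N N x) (sec N N x + 1) :=
        Ch.of_step (Or.inl rfl)
      refine h1.trans (l := 0) (hsec (k := 0) _ _ (sec_succ hu x) t3 ?_)
      rw [sm_succ t1 (sec_succ hu x), t2, t4]
    have hmap : Ch (R2 (lins N u') (lins N u)) nb j (sec N N 0) (sec N N N) := by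
      refine Ch.map (sec N N) ?_ ?_ hc
      · intro a b hab
        obtain ⟨t1, t2⟩ := sec_spec (i := N) hu a
        obtain ⟨t3, t4⟩ := sec_spec (i := N) hu b
        refine Ch.of_rel ((hR _ _).2 (Or.inr ⟨t1, t3, ?_⟩))
        rw [t2, t4]
        exact hab
      · intro a b hab
        rcases hab with h | h
        · rw [h]
          exact hup a
        · rw [h]
          exact (hup b).symm (fun _ _ => R2_symm) (fun _ _ => nb_symm)
    obtain ⟨t1, t2⟩ := sec_spec (i := N) hu 0
    obtain ⟨t3, t4⟩ := sec_spec (i := N) hu N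
    have s0 : Ch (R2 (lins N u') (lins N u)) nb (0 + 1) (-1) 0 :=
      Ch.of_step (Or.inl (by norm_num))
    have s1 := hsec (k := 0) 0 (sec N N 0) n0 t1 (by rw [t2]; exact sm_zero (le_refl N))
    have s3 := hsec (k := 0) (sec N N N) N t3 nN (by rw [t4, sm_N])
    have s4 : Ch (R2 (lins N u') (lins N u)) nb (0 + 1) (N : ℤ) (N + 1) :=
      Ch.of_step (Or.inl rfl)
    exact ((((s0.trans s1).trans hmap).trans s3).trans s4).mono (by omega)

end SeamAux

open SeamAux in
theorem seam_step {u u' : Word} (hl : u'.length = u.length) (hu : 1 ≤ u.length) (k : ℕ) :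
    Ch (R2 (seam u') (seam u)) nb k 0 (u.length + 2) ↔
      ∃ j, k = j + 2 ∧ Ch (R2 u' u) nb j 0 u.length := by
  rw [← core hl hu k]
  have e : ∀ a b : ℤ, R2 (seam u') (seam u) (a + 1) (b + 1) ↔
      R2 (lins u.length u') (lins u.length u) a b := by
    intro a b
    unfold R2
    rw [Rw_seam, Rw_seam, hl]
  constructor
  · intro h
    have h1 := Ch.map (RY := R2 (lins u.length u') (lins u.length u)) (SY := nb)
      (fun a : ℤ => a - 1) (fun a b hab => Ch.of_rel (by
        rw [← e]
        simpa using hab)) (fun a b hab => Ch.of_step (k := 0) (by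
        rcases hab with h | h
        · left
          show b - 1 = a - 1 + 1
          omega
        · right
          show a - 1 = b - 1 + 1
          omega)) h
    have e2 : ((u.length : ℤ) + 2) - 1 = u.length + 1 := by ring
    have h2 : Ch (R2 (lins u.length u') (lins u.length u)) nb k (0 - 1)
      (((u.length : ℤ) + 2) - 1) := h1
    rw [e2, zero_sub] at h2
    exact h2
  · intro h
    have h1 := Ch.map (RY := R2 (seam u') (seam u)) (SY := nb)
      (fun a : ℤ => a + 1) (fun a b hab => Ch.of_rel (by
        show R2 (seam u') (seam u) (a + 1) (b + 1)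
        rw [e]
        exact hab)) (fun a b hab => Ch.of_step (k := 0) (by
        rcases hab with h | h
        · left
          show b + 1 = a + 1 + 1
          omega
        · right
          show a + 1 = b + 1 + 1
          omega)) h
    have e2 : ((u.length : ℤ) + 1) + 1 = u.length + 2 := by ring
    have h2 : Ch (R2 (seam u') (seam u)) nb k (-1 + 1) (((u.length : ℤ) + 1) + 1) := h1
    rw [e2] at h2
    simpa using h2

theorem seam_nil (k : ℕ) : Ch (R2 (seam []) (seam [])) nb k 0 2 ↔ 2 ≤ k := by
  have hev : ∀ a b : ℤ, a % 2 = 0 → Rw (seam []) a b → a = b := by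
    intro a b ha h
    refine rw_peak ?_ ?_ h
    · rw [sg_mul (seam []) (a / 2) 0 (by simp [seam]) a (by simp [seam]; omega)]
      simp [seam]
    · rw [sg_mul (seam []) (a / 2 - 1) 1 (by simp [seam]) (a - 1) (by simp [seam]; omega)]
      simp [seam]
  have hev2 : ∀ a b : ℤ, a % 2 = 0 → R2 (seam []) (seam []) a b → a = b := by
    intro a b ha h
    rcases h with h | h
    · exact hev a b ha h
    · exact hev a b ha h
  constructor
  · intro h
    have key : ∀ k a z, Ch (R2 (seam []) (seam [])) nb k a z → a = 0 →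
        (z = 0 ∨ (z % 2 = 1 ∧ 1 ≤ k) ∨ (z % 2 = 0 ∧ 2 ≤ k)) := by
      intro k a z h
      induction h with
      | refl k a =>
        intro ha
        exact Or.inl ha
      | @rel k a b c hab hbc ih =>
        intro ha
        rcases ih ha with h1 | ⟨h1, h2⟩ | ⟨h1, h2⟩
        · have := hev2 b c (by omega) hbc
          left
          omega
        · right
          left
          refine ⟨?_, h2⟩
          by_contra h3
          have := hev2 c b (by omega) (R2_symm hbc)
          omega
        · have := hev2 b c h1 hbc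
          right
          right
          exact ⟨by omega, h2⟩
      | @step k a b c hab hbc ih =>
        intro ha
        rcases hbc with h | h
        · rcases ih ha with h1 | ⟨h1, h2⟩ | ⟨h1, h2⟩ <;> omega
        · rcases ih ha with h1 | ⟨h1, h2⟩ | ⟨h1, h2⟩ <;> omega
    rcases key _ _ _ h rfl with h1 | ⟨h1, -⟩ | ⟨-, h1⟩
    · omega
    · omega
    · exact h1
  · intro h
    have h1 : Ch (R2 (seam []) (seam [])) nb (0 + 1 + 1) (0 : ℤ) 2 :=
      Ch.step (Ch.step (b := 0) (c := 1) (Ch.refl _ _) (Or.inl (by norm_num)))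
        (Or.inl (by norm_num))
    exact h1.mono (by omega)

end Pool.Agent.H863R2.Nest
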