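import Pool.Agent.H863R2.Nest.Defs
import Pool.Agent.H863R2.Nest.Col
import Pool.Agent.H863R2.Nest.Seam

/-!
# The minimal number of colour changes is twice the number of loops (helper409)
-/

namespace Pool.Agent.H863R2.Nest
open Pool.Agent.H863R2.Cyl
open Pool.Agent.H988R2.Perc (Word)

namespace DistAux

theorem R2_comm (w' w : Word) : R2 w' w = R2 w w' := by
  funext a b
  exact propext or_comm

theorem nil_case {f : Word → Word → ℕ} (hf : FSpec f) {w' : Word} {i : ℕ} {u : Word} (h' : Ok w')
    (hu : Ok u) (hi : i ≤ u.length) (hl' : w'.length = 2) (hul : u.length = 0) (k : ℕ) :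
    Ch (R2 w' (lins i u)) nb k 0 (2 * ((0 + 1 : ℕ) : ℤ)) := by
  have e1 : u = [] := List.length_eq_zero_iff.1 hul
  subst e1
  have hcl : (cap i w').length = 0 := by
    have := length_cap (i := i) (w := w') (by omega)
    omega
  have e2 : cap i w' = [] := List.length_eq_zero_iff.1 hcl
  have h1 : f w' (lins i []) = 0 := by
    rw [hf.insR i w' [] h' hu (by simpa using hl') hi, e2, hf.nil]
  have h2 : Ok (lins i ([] : Word)) := by
    have e3 : i = 0 := by simpa using hi
    subst e3
    unfold Ok
    decide
  have h3 := (f_zero_iff hf (n := 0 + 1) h' h2 (by omega) (by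
    rw [lins, Pool.Agent.H988R2.Perc.length_ins]
    simp)).1 h1
  exact Ch.of_eqv (fun a b h => R2_symm h) h3

end DistAux

open DistAux in
/-- the minimal number of colour changes from the face `0` to its translate is `2 f` -/
theorem f_dist {f : Word → Word → ℕ} (hf : FSpec f) {n : ℕ} {w' w : Word} (h' : Ok w')
    (h : Ok w) (hl' : w'.length = 2 * n) (hl : w.length = 2 * n) (k : ℕ) :
    Ch (R2 w' w) nb k 0 (2 * n) ↔ 2 * f w' w ≤ k := by
  induction n generalizing w w' k with
  | zero =>
    have e1 : w = [] := List.length_eq_zero_iff.1 (by omega)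
    have e2 : w' = [] := List.length_eq_zero_iff.1 (by omega)
    subst e1 e2
    rw [hf.nil]
    simp only [mul_zero, Nat.zero_le, iff_true, Nat.cast_zero]
    exact Ch.refl _ _
  | succ n ih =>
    have main : ∀ (w' : Word) (i : ℕ) (u : Word), Ok w' → Ok u → i ≤ u.length →
        w'.length = 2 * (n + 1) → (lins i u).length = 2 * (n + 1) →
        (Ch (R2 w' (lins i u)) nb k 0 (2 * ((n + 1 : ℕ) : ℤ)) ↔ 2 * f (cap i w') u ≤ k) ∧
        (Ch (R2 w' (lins i u)) nb k 0 (2 * ((n + 1 : ℕ) : ℤ)) ↔ 2 * f u (cap i w') ≤ k) := by
      intro w' i u h' hu hi hl' hl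
      have hul : u.length = 2 * n := by
        rw [lins, Pool.Agent.H988R2.Perc.length_ins] at hl
        omega
      have hcl : (cap i w').length = 2 * n := by
        have := length_cap (i := i) (w := w') (by omega)
        omega
      have hcok : Ok (cap i w') := ok_cap h' (by omega)
      rcases Nat.eq_zero_or_pos n with hn | hn
      · subst hn
        have h1 := nil_case hf h' hu hi (by omega) (by omega) k
        have e1 : u = [] := List.length_eq_zero_iff.1 (by omega)
        have e2 : cap i w' = [] := List.length_eq_zero_iff.1 (by omega)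
        have e3 : 2 * f (cap i w') u ≤ k := by rw [e1, e2, hf.nil]; omega
        have e4 : 2 * f u (cap i w') ≤ k := by rw [e1, e2, hf.nil]; omega
        exact ⟨⟨fun _ => e3, fun _ => h1⟩, ⟨fun _ => e4, fun _ => h1⟩⟩
      · have h1 := collapse hi (by omega) ⟨n, by omega⟩ h' (by omega) k
        rw [hul] at h1
        have e : (2 * ((n + 1 : ℕ) : ℤ)) = ((2 * n : ℕ) : ℤ) + 2 := by push_cast; ring
        have e' : ((2 * n : ℕ) : ℤ) = 2 * (n : ℤ) := by push_cast; ring
        rw [e, h1, e']
        constructor
        · exact ih hcok hu hcl hul k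
        · rw [R2_comm]
          exact ih hu hcok hul hcl k
    rcases exists_arc h (by omega) with ⟨i, u, hi, hu, hw, -, -⟩ | ⟨u, hu, hw, -⟩
    · subst hw
      rw [hf.insR i w' u h' hu (by
        rw [lins, Pool.Agent.H988R2.Perc.length_ins] at hl
        omega) hi]
      exact (main w' i u h' hu hi hl' hl).1
    · rcases exists_arc h' (by omega) with ⟨i, u', hi, hu', hw', -, -⟩ | ⟨u', hu', hw', -⟩
      · subst hw'
        rw [hf.insL i u' w hu' h (by
          rw [lins, Pool.Agent.H988R2.Perc.length_ins] at hl'
          omega) hi, R2_comm]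
        exact (main w i u' h hu' hi hl hl').2
      · subst hw hw'
        have hlu : u'.length = u.length := by
          simp only [seam, List.length_append, List.length_cons, List.length_nil] at hl hl'
          omega
        have hul : u.length = 2 * n := by
          simp only [seam, List.length_append, List.length_cons, List.length_nil] at hl
          omega
        rw [hf.seam u' u hu' hu hlu]
        rcases Nat.eq_zero_or_pos n with hn | hn
        · subst hn
          have e1 : u = [] := List.length_eq_zero_iff.1 (by omega)
          have e2 : u' = [] := List.length_eq_zero_iff.1 (by omega)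
          subst e1 e2
          rw [hf.nil]
          have := seam_nil k
          simpa using this
        · have h1 := seam_step hlu (by omega) k
          rw [hul] at h1
          have e : (2 * ((n + 1 : ℕ) : ℤ)) = ((2 * n : ℕ) : ℤ) + 2 := by push_cast; ring
          have e' : ((2 * n : ℕ) : ℤ) = 2 * (n : ℤ) := by push_cast; ring
          rw [e, h1, e']
          constructor
          · rintro ⟨j, h2, h3⟩
            have := (ih hu' hu (by omega) hul j).1 h3
            omega
          · intro h2
            exact ⟨k - 2, by omega, (ih hu' hu (by omega) hul (k - 2)).2 (by omega)⟩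

end Pool.Agent.H863R2.Nest
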