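import Pool.Agent.H863R2.Nest.Step
import Pool.Agent.H863R2.Nest.Dist

/-!
# All rows of the two-sided lattice
-/

namespace Pool.Agent.H863R2.Nest
open Pool.Agent.H863R2.Cyl
open Pool.Agent.H988R2.Perc (Word)

namespace RowsAux

theorem ch_congr {X : Type*} {R R' S S' : X → X → Prop} (hR : ∀ a b, R a b ↔ R' a b)
    (hS : ∀ a b, S a b ↔ S' a b) (k : ℕ) (a b : X) : Ch R S k a b ↔ Ch R' S' k a b := by
  have h1 : R = R' := by funext a b; exact propext (hR a b)
  have h2 : S = S' := by funext a b; exact propext (hS a b)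
  rw [h1, h2]

theorem perm1 (a b c : Prop) : (a ∨ c) ∨ b ↔ a ∨ b ∨ c := by tauto

theorem perm2 (x y z w : Prop) : x ∨ y ∨ z ∨ w ↔ (z ∨ w) ∨ x ∨ y := by tauto

theorem perm3 (x y z : Prop) : (x ∨ y) ∨ z ↔ z ∨ x ∨ y := by tauto

theorem rows_shift (m : ℕ) (c : ℕ → Fin (m + 1) → Bool) (M : ℕ) (σ : Wd (m + 1)) :
    rows m c (M + 1) σ = rows m (fun t => c (t + 1)) M (Tc m (c 0) σ) := by
  induction M with
  | zero => rfl
  | succ M ih =>
    rw [show rows m c (M + 1 + 1) σ = Tc m (c (M + 1)) (rows m c (M + 1) σ) from rfl, ih]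
    rfl

theorem lks_symm {m : ℕ} {c : Fin (m + 1) → Bool} {t : ℤ} {p q : ℤ × ℤ} (h : lks c t p q) :
    lks c t q p := h.symm

theorem lks_ge {m : ℕ} {c : Fin (m + 1) → Bool} {t : ℤ} {p q : ℤ × ℤ} (h : lks c t p q) :
    t ≤ p.2 ∧ t ≤ q.2 ∧ p.2 ≤ t + 1 ∧ q.2 ≤ t + 1 := by
  rcases h with h | h
  · obtain ⟨h1, h2, -⟩ := h
    omega
  · obtain ⟨h1, h2, -⟩ := h
    omega

theorem at_symm {w : Word} {t : ℤ} {p q : ℤ × ℤ} (h : at_ w t p q) : at_ w t q p :=
  ⟨h.2.1, h.1, (Rw_equiv _).symm h.2.2⟩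

theorem mir_mir (p : ℤ × ℤ) : mir (mir p) = p := by
  simp [mir]

theorem ch_mir {R S : ℤ × ℤ → ℤ × ℤ → Prop} (k : ℕ) (p q : ℤ × ℤ) :
    Ch R S k p q ↔
      Ch (fun p q => R (mir p) (mir q)) (fun p q => S (mir p) (mir q)) k (mir p) (mir q) := by
  constructor
  · intro h
    refine h.map mir (fun a b hab => Ch.of_rel ?_) (fun a b hab => Ch.of_step ?_)
    · simpa only [mir_mir] using hab
    · simpa only [mir_mir] using hab
  · intro h
    have h1 := h.map (RY := R) (SY := S) mir (fun a b hab => Ch.of_rel hab)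
      (fun a b hab => Ch.of_step hab)
    rwa [mir_mir, mir_mir] at h1

end RowsAux

open RowsAux

/-- `M` rows below the level `0` -/
theorem rows_step {m : ℕ} (hm : 1 ≤ m) (c : ℕ → Fin (m + 1) → Bool) (σ : Wd (m + 1)) (M : ℕ)
    (s : ℤ) (hs : 0 ≤ s) (U : ℤ × ℤ → ℤ × ℤ → Prop) (hU : ∀ p q, U p q → 0 ≤ p.2 ∧ 0 ≤ q.2)
    (hsym : ∀ p q, U p q → U q p) (k : ℕ) {p q : ℤ × ℤ} (hp : 0 ≤ p.2) (hq : 0 ≤ q.2) :
    Ch (fun p q => U p q ∨ at_ σ.1 (-M) p q ∨ ∃ t : ℕ, t < M ∧ lks (c t) (-M + t) p q)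
        (StI (-M) s) k p q ↔
      Ch (fun p q => U p q ∨ at_ (rows m c M σ).1 0 p q) (StI 0 s) k p q := by
  induction M generalizing c σ with
  | zero =>
    refine ch_congr (fun a b => ?_) (fun a b => ?_) k p q
    · simp [rows]
    · simp
  | succ M ih =>
    set T : ℤ := -((M + 1 : ℕ) : ℤ) with hT
    have hT' : T + 1 = -(M : ℤ) := by rw [hT]; push_cast; ring
    have h1 := row_step hm (c 0) σ T s (by omega)
      (fun p q => U p q ∨ ∃ t : ℕ, t < M ∧ lks (c (t + 1)) (-M + t) p q)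
      (by
        rintro a b (h | ⟨t, ht, h⟩)
        · have := hU a b h
          omega
        · have := lks_ge h
          omega)
      (by
        rintro a b (h | ⟨t, ht, h⟩)
        · exact Or.inl (hsym a b h)
        · exact Or.inr ⟨t, ht, lks_symm h⟩)
      k (p := p) (q := q) (by omega) (by omega)
    have h2 := ih (fun t => c (t + 1)) (Tc m (c 0) σ)
    rw [rows_shift]
    rw [← h2]
    refine Iff.trans ?_ (h1.trans ?_)
    · refine ch_congr (fun a b => ?_) (fun a b => Iff.rfl) k p q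
      constructor
      · rintro (h | h | ⟨t, ht, h⟩)
        · exact Or.inl (Or.inl h)
        · exact Or.inr (Or.inr h)
        · rcases Nat.eq_zero_or_pos t with h0 | h0
          · subst h0
            refine Or.inr (Or.inl ?_)
            simpa using h
          · obtain ⟨u, rfl⟩ : ∃ u, t = u + 1 := ⟨t - 1, by omega⟩
            refine Or.inl (Or.inr ⟨u, by omega, ?_⟩)
            have e : T + ((u + 1 : ℕ) : ℤ) = -(M : ℤ) + u := by rw [hT]; push_cast; ring
            rwa [e] at h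
      · rintro ((h | ⟨t, ht, h⟩) | h | h)
        · exact Or.inl h
        · refine Or.inr (Or.inr ⟨t + 1, by omega, ?_⟩)
          have e : T + ((t + 1 : ℕ) : ℤ) = -(M : ℤ) + t := by rw [hT]; push_cast; ring
          rwa [e]
        · refine Or.inr (Or.inr ⟨0, by omega, ?_⟩)
          simpa using h
        · exact Or.inr (Or.inl h)
    · refine ch_congr (fun a b => ?_) (fun a b => ?_) k p q
      · rw [hT']
        exact perm1 _ _ _
      · rw [hT']

/-- the two-sided lattice -/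
theorem full_iff {m : ℕ} (hm : 1 ≤ m) (c c' : ℕ → Fin (m + 1) → Bool) (M M' : ℕ)
    (σ τ : Wd (m + 1)) (k : ℕ) (a b : ℤ) :
    Ch (Full c c' M M' σ.1 τ.1) (StI (-M) M') k (a, 0) (b, 0) ↔
      Ch (R2 (rows m c M σ).1 (rows m c' M' τ).1) nb k a b := by
  have h1 := rows_step hm c σ M (M' : ℤ) (by omega)
    (fun p q => at_ τ.1 (-M') (mir p) (mir q) ∨
      ∃ t : ℕ, t < M' ∧ lks (c' t) (-M' + t) (mir p) (mir q))
    (by
      rintro p q (h | ⟨t, ht, h⟩)
      · obtain ⟨h1, h2, -⟩ := h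
        simp only [mir] at h1 h2
        omega
      · have := lks_ge h
        simp only [mir] at this
        omega)
    (by
      rintro p q (h | ⟨t, ht, h⟩)
      · exact Or.inl (at_symm h)
      · exact Or.inr ⟨t, ht, lks_symm h⟩)
    k (p := (a, 0)) (q := (b, 0)) le_rfl le_rfl
  have h2 := rows_step hm c' τ M' 0 le_rfl (fun p q => at_ (rows m c M σ).1 0 p q)
    (by
      rintro p q h
      exact ⟨h.1.ge, h.2.1.ge⟩)
    (fun p q h => at_symm h) k (p := (a, 0)) (q := (b, 0)) le_rfl le_rfl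
  have e0 : Ch (Full c c' M M' σ.1 τ.1) (StI (-M) M') k (a, 0) (b, 0) ↔
      Ch (fun p q => (at_ τ.1 (-M') (mir p) (mir q) ∨
        ∃ t : ℕ, t < M' ∧ lks (c' t) (-M' + t) (mir p) (mir q)) ∨ at_ σ.1 (-M) p q ∨
          ∃ t : ℕ, t < M ∧ lks (c t) (-M + t) p q) (StI (-M) M') k (a, 0) (b, 0) := by
    refine ch_congr (fun p q => ?_) (fun p q => Iff.rfl) k _ _
    unfold Full
    exact perm2 _ _ _ _
  rw [e0, h1, ch_mir]
  have e1 : mir (a, 0) = (a, 0) := by simp [mir]
  have e2 : mir (b, 0) = (b, 0) := by simp [mir]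
  rw [e1, e2]
  have e3 : Ch (fun p q => (at_ τ.1 (-M') (mir (mir p)) (mir (mir q)) ∨
        ∃ t : ℕ, t < M' ∧ lks (c' t) (-M' + t) (mir (mir p)) (mir (mir q))) ∨
        at_ (rows m c M σ).1 0 (mir p) (mir q)) (fun p q => StI 0 M' (mir p) (mir q))
        k (a, 0) (b, 0) ↔
      Ch (fun p q => at_ (rows m c M σ).1 0 p q ∨ at_ τ.1 (-M') p q ∨
        ∃ t : ℕ, t < M' ∧ lks (c' t) (-M' + t) p q) (StI (-M') 0) k (a, 0) (b, 0) := by
    refine ch_congr (fun p q => ?_) (fun p q => ?_) k _ _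
    · simp only [mir_mir]
      have : at_ (rows m c M σ).1 0 (mir p) (mir q) ↔ at_ (rows m c M σ).1 0 p q := by
        unfold at_
        simp only [mir, neg_eq_zero]
      rw [this]
      exact perm3 _ _ _
    · unfold StI St nb
      simp only [mir]
      omega
  rw [e3, h2]
  constructor
  · intro h
    have h3 := h.map (RY := R2 (rows m c M σ).1 (rows m c' M' τ).1) (SY := nb) Prod.fst
      (fun p q hpq => by
        refine Ch.of_rel ?_
        rcases hpq with hpq | hpq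
        · exact Or.inl hpq.2.2
        · exact Or.inr hpq.2.2)
      (fun p q hpq => by
        refine Ch.of_step ?_
        obtain ⟨⟨h1, h2⟩, ⟨h3, h4⟩, h5⟩ := hpq
        rcases h5 with h5 | h5
        · exact h5.2
        · exfalso
          have := h5.2
          unfold nb at this
          omega)
    exact h3
  · intro h
    exact h.map (fun x : ℤ => ((x, 0) : ℤ × ℤ))
      (fun x y hxy => by
        refine Ch.of_rel ?_
        rcases hxy with hxy | hxy
        · exact Or.inl ⟨rfl, rfl, hxy⟩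
        · exact Or.inr ⟨rfl, rfl, hxy⟩)
      (fun x y hxy => Ch.of_step ⟨⟨le_rfl, le_rfl⟩, ⟨le_rfl, le_rfl⟩, Or.inl ⟨rfl, hxy⟩⟩)

/-- **the number of nested loops is half the minimal number of colour changes** -/
theorem f_full {f : Word → Word → ℕ} (hf : FSpec f) {n : ℕ} (hn : 1 ≤ n)
    (c c' : ℕ → Fin (2 * n - 1 + 1) → Bool) (M M' : ℕ) (σ τ : Wd (2 * n - 1 + 1)) (k : ℕ) :
    Ch (Full c c' M M' σ.1 τ.1) (StI (-M) M') k (0, 0) (2 * n, 0) ↔
      2 * f (rows _ c M σ).1 (rows _ c' M' τ).1 ≤ k := by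
  rw [full_iff (by omega) c c' M M' σ τ k 0 (2 * n)]
  exact f_dist hf (rows _ c M σ).2.2 (rows _ c' M' τ).2.2
    (by rw [(rows _ c M σ).2.1]; omega) (by rw [(rows _ c' M' τ).2.1]; omega) k

end Pool.Agent.H863R2.Nest
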