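import Pool.Agent.H863R2.Nest.Adj

/-!
# Module Step: removal of one row (helper93)
-/

namespace Pool.Agent.H863R2.Nest
open Pool.Agent.H863R2.Cyl
open Pool.Agent.H988R2.Perc (Word)

namespace StepAux

variable {m : ℕ}

theorem at_symm {w : Word} {t : ℤ} {p q : ℤ × ℤ} (h : at_ w t p q) : at_ w t q p :=
  ⟨h.2.1, h.1, (Rw_equiv w).symm h.2.2⟩

theorem lks_symm {c : Fin (m + 1) → Bool} {t : ℤ} {p q : ℤ × ℤ} (h : lks c t p q) :
    lks c t q p := Or.symm h

/-- the level of a face of a row -/
def lev (t : ℤ) (x : ℤ × Bool) : ℤ × ℤ := (x.1, if x.2 then t + 1 else t)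

theorem eqv_lev {c : Fin (m + 1) → Bool} {w : Word} {t : ℤ}
    {A : ℤ × ℤ → ℤ × ℤ → Prop} (h1 : ∀ p q, at_ w t p q → A p q)
    (h2 : ∀ p q, lks c t p q → A p q) {x y : ℤ × Bool}
    (h : Relation.EqvGen (Row m c w) x y) : Relation.EqvGen A (lev t x) (lev t y) := by
  induction h with
  | rel x y h =>
    refine Relation.EqvGen.rel _ _ ?_
    cases h with
    | low a b h => exact h1 _ _ ⟨rfl, rfl, h⟩
    | link0 j h => exact h2 _ _ (Or.inl ⟨rfl, rfl, Or.inl ⟨rfl, h⟩⟩)
    | link1 j h => exact h2 _ _ (Or.inl ⟨rfl, rfl, Or.inr ⟨rfl, h⟩⟩)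
  | refl x => exact Relation.EqvGen.refl _
  | symm x y _ ih => exact Relation.EqvGen.symm _ _ ih
  | trans x y z _ _ ih1 ih2 => exact Relation.EqvGen.trans _ _ _ ih1 ih2

/-- the lower face `z` is linked to the upper face `b` -/
theorem row_of_lk {c : Fin (m + 1) → Bool} {w : Word} {t : ℤ} {z b : ℤ × ℤ}
    (h : lk c t z b) : Row m c w (z.1, false) (b.1, true) ∧ Lnk c z.1 := by
  obtain ⟨_, _, h | h⟩ := h
  · obtain ⟨h1, h2⟩ := h
    rw [h1]
    exact ⟨Row.link0 _ h2, Or.inl h2⟩
  · obtain ⟨h1, h2⟩ := h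
    refine ⟨?_, Or.inr ?_⟩
    · rw [h1]; exact Row.link1 _ h2
    · rw [h1]; simpa using h2

theorem CLnk_of_Lnk {c : Fin (m + 1) → Bool} {w : Word} {x : ℤ} (h : Lnk c x) : CLnk c w x :=
  ⟨x, (Rw_equiv w).refl x, h⟩

theorem CLnk_congr {c : Fin (m + 1) → Bool} {w : Word} {x y : ℤ} (h : Rw w x y)
    (hx : CLnk c w x) : CLnk c w y := by
  obtain ⟨e, he, hl⟩ := hx
  exact ⟨e, (Rw_equiv w).trans ((Rw_equiv w).symm h) he, hl⟩

/-- a linked lower face is linked to a neighbour on the upper side -/
theorem Lnk_nb {c : Fin (m + 1) → Bool} {w : Word} {x : ℤ} (h : Lnk c x) :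
    ∃ y, nb x y ∧ Row m c w (x, false) (y, true) := by
  rcases h with h | h
  · exact ⟨x + 1, Or.inl rfl, Row.link0 _ h⟩
  · refine ⟨x - 1, Or.inr (by ring), ?_⟩
    have := Row.link1 (w := w) (x - 1) h
    simpa using this

/-- the neighbours of an unlinked lower face are linked to the face above it -/
theorem not_Lnk {c : Fin (m + 1) → Bool} {w : Word} {x y : ℤ} (h : ¬ Lnk c x) (hxy : nb x y) :
    Row m c w (y, false) (x, true) ∧ Lnk c y := by
  have h1 : cl c x = true := by
    by_contra h0
    exact h (Or.inl (by simpa using h0))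
  have h2 : cl c (x - 1) = false := by
    by_contra h0
    exact h (Or.inr (by simpa using h0))
  rcases hxy with rfl | hxy
  · exact ⟨Row.link1 _ h1, Or.inr (by simpa using h1)⟩
  · have hy : y = x - 1 := by omega
    subst hy
    have := Row.link0 (w := w) (x - 1) h2
    refine ⟨by simpa using this, Or.inl h2⟩

end StepAux

open StepAux

/-- removal of the row between the levels `t` and `t+1` -/
theorem row_step {m : ℕ} (hm : 1 ≤ m) (c : Fin (m + 1) → Bool) (σ : Wd (m + 1)) (t s : ℤ)
    (hts : t + 1 ≤ s)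
    (U : ℤ × ℤ → ℤ × ℤ → Prop) (hU : ∀ p q, U p q → t + 1 ≤ p.2 ∧ t + 1 ≤ q.2)
    (hsym : ∀ p q, U p q → U q p) (k : ℕ) {p q : ℤ × ℤ} (hp : t + 1 ≤ p.2) (hq : t + 1 ≤ q.2) :
    Ch (fun p q => U p q ∨ lks c t p q ∨ at_ σ.1 t p q) (StI t s) k p q ↔
      Ch (fun p q => U p q ∨ at_ (Tc m c σ).1 (t + 1) p q) (StI (t + 1) s) k p q := by
  set A : ℤ × ℤ → ℤ × ℤ → Prop := fun p q => U p q ∨ lks c t p q ∨ at_ σ.1 t p q with hA
  set B : ℤ × ℤ → ℤ × ℤ → Prop := fun p q => U p q ∨ at_ (Tc m c σ).1 (t + 1) p q with hB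
  have hAs : ∀ p q, A p q → A q p := by
    intro p q h
    rcases h with h | h | h
    · exact Or.inl (hsym _ _ h)
    · exact Or.inr (Or.inl (lks_symm h))
    · exact Or.inr (Or.inr (at_symm h))
  constructor
  · -- forward
    have main : ∀ (k : ℕ) (p z : ℤ × ℤ), Ch A (StI t s) k p z → t + 1 ≤ p.2 →
        (t + 1 ≤ z.2 → Ch B (StI (t + 1) s) k p z) ∧
        (z.2 = t → (CLnk c σ.1 z.1 ∧ ∃ a, Relation.EqvGen (Row m c σ.1) (z.1, false) (a, true) ∧
            Ch B (StI (t + 1) s) k p (a, t + 1)) ∨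
          (¬ CLnk c σ.1 z.1 ∧ ∃ j, k = j + 1 ∧ Ch B (StI (t + 1) s) j p (z.1, t + 1))) := by
      intro k p z h
      -- moves at the upper level
      have up : ∀ {k : ℕ} {p : ℤ × ℤ} {a b : ℤ}, Ch B (StI (t + 1) s) k p (a, t + 1) →
          Relation.EqvGen (Row m c σ.1) (a, true) (b, true) →
          Ch B (StI (t + 1) s) k p (b, t + 1) := by
        intro k p a b h1 h2
        exact Ch.rel h1 (Or.inr ⟨rfl, rfl, (Rw_Tc m hm c σ a b).mpr h2⟩)
      have hor : ∀ {k : ℕ} {p : ℤ × ℤ} {a b : ℤ}, Ch B (StI (t + 1) s) k p (a, t + 1) →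
          nb a b → Ch B (StI (t + 1) s) (k + 1) p (b, t + 1) := by
        intro k p a b h1 h2
        exact Ch.step h1 ⟨⟨le_refl _, hts⟩, ⟨le_refl _, hts⟩, Or.inl ⟨rfl, h2⟩⟩
      have eta : ∀ {x : ℤ × ℤ} {l : ℤ}, x.2 = l → x = (x.1, l) := by
        intro x l hl
        rw [← hl]
      induction h with
      | refl k a =>
        intro hp
        exact ⟨fun _ => Ch.refl _ _, fun h0 => by omega⟩
      | @rel k p b z h hR ih =>
        intro hp
        obtain ⟨ih1, ih2⟩ := ih hp
        rcases hR with hR | hR | hR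
        · obtain ⟨h1, h2⟩ := hU _ _ hR
          exact ⟨fun _ => Ch.rel (ih1 h1) (Or.inl hR), fun h0 => by omega⟩
        · rcases hR with hR | hR
          · -- from the lower face `b` to the upper face `z`
            have hb2 : b.2 = t := hR.1
            have hz2 : z.2 = t + 1 := hR.2.1
            obtain ⟨hrow, hlnk⟩ := row_of_lk (w := σ.1) hR
            refine ⟨fun _ => ?_, fun h0 => by omega⟩
            rcases ih2 hb2 with ⟨_, a, ha, hc⟩ | ⟨hn, _⟩
            · rw [eta hz2]
              exact up hc ((Relation.EqvGen.symm _ _ ha).trans _ _ _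
                (Relation.EqvGen.rel _ _ hrow))
            · exact absurd (CLnk_of_Lnk hlnk) hn
          · -- from the upper face `b` to the lower face `z`
            have hb2 : b.2 = t + 1 := hR.2.1
            have hz2 : z.2 = t := hR.1
            obtain ⟨hrow, hlnk⟩ := row_of_lk (w := σ.1) hR
            refine ⟨fun h0 => by omega, fun _ => Or.inl ⟨CLnk_of_Lnk hlnk, b.1,
              Relation.EqvGen.rel _ _ hrow, ?_⟩⟩
            rw [← eta hb2]
            exact ih1 (by omega)
        · obtain ⟨hb2, hz2, hrw⟩ := hR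
          refine ⟨fun h0 => by omega, fun _ => ?_⟩
          rcases ih2 hb2 with ⟨hc, a, ha, hch⟩ | ⟨hn, j, hj, hch⟩
          · exact Or.inl ⟨CLnk_congr hrw hc, a, (Relation.EqvGen.rel _ _
              (Row.low _ _ ((Rw_equiv _).symm hrw))).trans _ _ _ ha, hch⟩
          · refine Or.inr ⟨fun h1 => hn (CLnk_congr ((Rw_equiv _).symm hrw) h1), j, hj, ?_⟩
            exact up hch (unl c σ.1 hrw hn)
      | @step k p b z h hS ih =>
        intro hp
        obtain ⟨ih1, ih2⟩ := ih hp
        obtain ⟨⟨hb1, hb2⟩, ⟨hz1, hz2⟩, hst⟩ := hS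
        rcases eq_or_lt_of_le hb1 with hb | hb
        · -- `b` at the level `t`
          have hbt : b.2 = t := hb.symm
          rcases eq_or_lt_of_le hz1 with hz | hz
          · -- `z` at the level `t`
            have hzt : z.2 = t := hz.symm
            have hnb : nb b.1 z.1 := by
              rcases hst with ⟨_, h1⟩ | ⟨_, h1⟩
              · exact h1
              · exfalso
                rcases h1 with h1 | h1 <;> omega
            refine ⟨fun h0 => by omega, fun _ => ?_⟩
            rcases ih2 hbt with ⟨hc, a, ha, hch⟩ | ⟨hn, j, hj, hch⟩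
            · by_cases hcz : CLnk c σ.1 z.1
              · obtain ⟨X, Y, hXY, hX, hY⟩ := adj c σ.1 hnb hc hcz
                refine Or.inl ⟨hcz, Y, hY, ?_⟩
                exact hor (up hch ((Relation.EqvGen.symm _ _ ha).trans _ _ _ hX)) hXY
              · have hnl : ¬ Lnk c z.1 := fun h1 => hcz (CLnk_of_Lnk h1)
                obtain ⟨hrow, _⟩ := not_Lnk (w := σ.1) hnl (nb_symm hnb)
                refine Or.inr ⟨hcz, k, rfl, ?_⟩
                exact up hch ((Relation.EqvGen.symm _ _ ha).trans _ _ _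
                  (Relation.EqvGen.rel _ _ hrow))
            · have hnl : ¬ Lnk c b.1 := fun h1 => hn (CLnk_of_Lnk h1)
              obtain ⟨hrow, hlz⟩ := not_Lnk (w := σ.1) hnl hnb
              exact Or.inl ⟨CLnk_of_Lnk hlz, b.1, Relation.EqvGen.rel _ _ hrow,
                hch.mono (by omega)⟩
          · -- `z` at the level `t + 1`
            have hzt : z.2 = t + 1 := by
              rcases hst with ⟨h1, _⟩ | ⟨_, h1⟩
              · omega
              · rcases h1 with h1 | h1 <;> omega
            have hbz : b.1 = z.1 := by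
              rcases hst with ⟨h1, _⟩ | ⟨h1, _⟩
              · omega
              · exact h1
            refine ⟨fun _ => ?_, fun h0 => by omega⟩
            rw [eta hzt, ← hbz]
            rcases ih2 hbt with ⟨hc, a, ha, hch⟩ | ⟨hn, j, hj, hch⟩
            · by_cases hl : Lnk c b.1
              · obtain ⟨y, hy, hrow⟩ := Lnk_nb (w := σ.1) hl
                exact hor (up hch ((Relation.EqvGen.symm _ _ ha).trans _ _ _
                  (Relation.EqvGen.rel _ _ hrow))) (nb_symm hy)
              · have hnb : nb b.1 (b.1 + 1) := Or.inl rfl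
                obtain ⟨hrow, hl1⟩ := not_Lnk (w := σ.1) hl hnb
                obtain ⟨X, Y, hXY, hX, hY⟩ := adj c σ.1 hnb hc (CLnk_of_Lnk hl1)
                exact up (hor (up hch ((Relation.EqvGen.symm _ _ ha).trans _ _ _ hX)) hXY)
                  ((Relation.EqvGen.symm _ _ hY).trans _ _ _ (Relation.EqvGen.rel _ _ hrow))
            · exact hch.mono (by omega)
        · -- `b` at a level `≥ t + 1`
          rcases eq_or_lt_of_le hz1 with hz | hz
          · have hzt : z.2 = t := hz.symm
            have hbt : b.2 = t + 1 := by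
              rcases hst with ⟨h1, _⟩ | ⟨_, h1⟩
              · omega
              · rcases h1 with h1 | h1 <;> omega
            have hbz : b.1 = z.1 := by
              rcases hst with ⟨h1, _⟩ | ⟨h1, _⟩
              · omega
              · exact h1
            have hch := ih1 (by omega)
            rw [eta hbt] at hch
            refine ⟨fun h0 => by omega, fun _ => ?_⟩
            rw [← hbz]
            by_cases hc : CLnk c σ.1 b.1
            · by_cases hl : Lnk c b.1
              · obtain ⟨y, hy, hrow⟩ := Lnk_nb (w := σ.1) hl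
                exact Or.inl ⟨hc, y, Relation.EqvGen.rel _ _ hrow, hor hch hy⟩
              · have hnb : nb b.1 (b.1 + 1) := Or.inl rfl
                obtain ⟨hrow, hl1⟩ := not_Lnk (w := σ.1) hl hnb
                obtain ⟨X, Y, hXY, hX, hY⟩ := adj c σ.1 hnb hc (CLnk_of_Lnk hl1)
                refine Or.inl ⟨hc, X, hX, ?_⟩
                exact hor (up hch ((Relation.EqvGen.symm _ _
                  (Relation.EqvGen.rel _ _ hrow)).trans _ _ _ hY)) (nb_symm hXY)
            · exact Or.inr ⟨hc, k, rfl, hch⟩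
          · refine ⟨fun _ => ?_, fun h0 => by omega⟩
            exact Ch.step (ih1 (by omega)) ⟨⟨by omega, hb2⟩, ⟨by omega, hz2⟩, hst⟩
    exact fun h => (main k p q h hp).1 hq
  · -- backward
    intro h
    have := Ch.map (RY := A) (SY := StI t s) (fun x : ℤ × ℤ => x) ?_ ?_ h
    · exact this
    · intro a b hab
      rcases hab with hab | ⟨ha, hb, hrw⟩
      · exact Ch.of_rel (Or.inl hab)
      · have h1 := (Rw_Tc m hm c σ a.1 b.1).mp hrw
        have h2 := eqv_lev (A := A) (t := t) (fun p q h => Or.inr (Or.inr h))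
          (fun p q h => Or.inr (Or.inl h)) h1
        have e1 : lev t (a.1, true) = a := by
          unfold lev
          rw [if_pos rfl, ← ha]
        have e2 : lev t (b.1, true) = b := by
          unfold lev
          rw [if_pos rfl, ← hb]
        rw [e1, e2] at h2
        exact Ch.of_eqv hAs h2
    · intro a b hab
      obtain ⟨⟨h1, h2⟩, ⟨h3, h4⟩, h5⟩ := hab
      exact Ch.of_step ⟨⟨by omega, h2⟩, ⟨by omega, h4⟩, h5⟩

end Pool.Agent.H863R2.Nest
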