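import Pool.Agent.H863R2.Nest.Defs

/-!
# Blueprint: number of nested loops = half the number of colour changes.
DO NOT import this file in final proofs. Each module proves its statements under the same names in
its own file `Pool/Agent/H863R2/Nest/<Module>.lean`, namespace `Pool.Agent.H863R2.Nest`.
-/

namespace Pool.Agent.H863R2.Nest
open Pool.Agent.H863R2.Cyl
open Pool.Agent.H863R2.Cyl.Sem4Aux (sm iso sec)
open Pool.Agent.H988R2.Perc (Word)

/-! ### Module Key (file Key.lean) -/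

theorem key1 {u w' : Word} {i : ℕ} (hi : i ≤ u.length) (hu : 1 ≤ u.length) (hev : Even u.length)
    (hw' : Ok w') (hl : w'.length = u.length + 2) {b c : ℤ} (hb : iso u.length i b)
    (hc : ¬ iso u.length i c) (h : Rw w' b c) :
    Ch (Rw (cap i w')) nb 1 (sm u.length i (b - 1)) (sm u.length i c) := sorry

theorem key2 {u w' : Word} {i : ℕ} (hi : i ≤ u.length) (hu : 1 ≤ u.length) (hev : Even u.length)
    (hw' : Ok w') (hl : w'.length = u.length + 2) {b c : ℤ} (hb : iso u.length i b)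
    (hc : iso u.length i c) (h : Rw w' b c) :
    Ch (Rw (cap i w')) nb 2 (sm u.length i (b - 1)) (sm u.length i (c - 1)) := sorry

/-! ### Module Col (file Col.lean, imports Key) -/

theorem collapse {u w' : Word} {i : ℕ} (hi : i ≤ u.length) (hu : 1 ≤ u.length)
    (hev : Even u.length) (hw' : Ok w') (hl : w'.length = u.length + 2) (k : ℕ) :
    Ch (R2 w' (lins i u)) nb k 0 (u.length + 2) ↔ Ch (R2 (cap i w') u) nb k 0 u.length := sorry

/-! ### Module Seam (file Seam.lean) -/

theorem seam_step {u u' : Word} (hl : u'.length = u.length) (hu : 1 ≤ u.length) (k : ℕ) :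
    Ch (R2 (seam u') (seam u)) nb k 0 (u.length + 2) ↔
      ∃ j, k = j + 2 ∧ Ch (R2 u' u) nb j 0 u.length := sorry

theorem seam_nil (k : ℕ) : Ch (R2 (seam []) (seam [])) nb k 0 2 ↔ 2 ≤ k := sorry

/-! ### Module Dist (file Dist.lean, imports Col, Seam) -/

/-- the minimal number of colour changes from the face `0` to its translate is `2 f` -/
theorem f_dist {f : Word → Word → ℕ} (hf : FSpec f) {n : ℕ} {w' w : Word} (h' : Ok w')
    (h : Ok w) (hl' : w'.length = 2 * n) (hl : w.length = 2 * n) (k : ℕ) :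
    Ch (R2 w' w) nb k 0 (2 * n) ↔ 2 * f w' w ≤ k := sorry

/-! ### Module Adj (file Adj.lean): adjacent lower faces are adjacent above a row -/

/-- the lower face `b` is linked to an upper face by a plaquette of the row -/
def Lnk {m : ℕ} (c : Fin (m + 1) → Bool) (b : ℤ) : Prop := cl c b = false ∨ cl c (b - 1) = true

/-- the class of the lower face `b` (connections of the word `w`) contains a linked face -/
def CLnk {m : ℕ} (c : Fin (m + 1) → Bool) (w : Word) (b : ℤ) : Prop := ∃ e, Rw w b e ∧ Lnk c e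

/-- adjacent lower faces with linked classes have adjacent upper representatives -/
theorem adj {m : ℕ} (c : Fin (m + 1) → Bool) (w : Word) {x y : ℤ} (hxy : nb x y)
    (hx : CLnk c w x) (hy : CLnk c w y) :
    ∃ X Y : ℤ, nb X Y ∧ Relation.EqvGen (Row m c w) (x, false) (X, true) ∧
      Relation.EqvGen (Row m c w) (y, false) (Y, true) := sorry

/-- the upper faces above the members of an unlinked class are connected -/
theorem unl {m : ℕ} (c : Fin (m + 1) → Bool) (w : Word) {x y : ℤ} (hxy : Rw w x y)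
    (hx : ¬ CLnk c w x) : Relation.EqvGen (Row m c w) (x, true) (y, true) := sorry

/-! ### Module Step (file Step.lean, imports Adj): removal of one row -/

/-- removal of the row between the levels `t` and `t+1` -/
theorem row_step {m : ℕ} (hm : 1 ≤ m) (c : Fin (m + 1) → Bool) (σ : Wd (m + 1)) (t s : ℤ)
    (hts : t + 1 ≤ s)
    (U : ℤ × ℤ → ℤ × ℤ → Prop) (hU : ∀ p q, U p q → t + 1 ≤ p.2 ∧ t + 1 ≤ q.2)
    (hsym : ∀ p q, U p q → U q p) (k : ℕ) {p q : ℤ × ℤ} (hp : t + 1 ≤ p.2) (hq : t + 1 ≤ q.2) :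
    Ch (fun p q => U p q ∨ lks c t p q ∨ at_ σ.1 t p q) (StI t s) k p q ↔
      Ch (fun p q => U p q ∨ at_ (Tc m c σ).1 (t + 1) p q) (StI (t + 1) s) k p q := sorry

/-! ### Module Rows (file Rows.lean, imports Step): all rows -/

/-- `M` rows below the level `0` -/
theorem rows_step {m : ℕ} (hm : 1 ≤ m) (c : ℕ → Fin (m + 1) → Bool) (σ : Wd (m + 1)) (M : ℕ)
    (s : ℤ) (hs : 0 ≤ s) (U : ℤ × ℤ → ℤ × ℤ → Prop) (hU : ∀ p q, U p q → 0 ≤ p.2 ∧ 0 ≤ q.2)
    (hsym : ∀ p q, U p q → U q p) (k : ℕ) {p q : ℤ × ℤ} (hp : 0 ≤ p.2) (hq : 0 ≤ q.2) :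
    Ch (fun p q => U p q ∨ at_ σ.1 (-M) p q ∨ ∃ t : ℕ, t < M ∧ lks (c t) (-M + t) p q)
        (StI (-M) s) k p q ↔
      Ch (fun p q => U p q ∨ at_ (rows m c M σ).1 0 p q) (StI 0 s) k p q := sorry

/-- the two-sided lattice -/
theorem full_iff {m : ℕ} (hm : 1 ≤ m) (c c' : ℕ → Fin (m + 1) → Bool) (M M' : ℕ)
    (σ τ : Wd (m + 1)) (k : ℕ) (a b : ℤ) :
    Ch (Full c c' M M' σ.1 τ.1) (StI (-M) M') k (a, 0) (b, 0) ↔
      Ch (R2 (rows m c M σ).1 (rows m c' M' τ).1) nb k a b := sorry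

/-- **the number of nested loops is half the minimal number of colour changes** -/
theorem f_full {f : Word → Word → ℕ} (hf : FSpec f) {n : ℕ} (hn : 1 ≤ n)
    (c c' : ℕ → Fin (2 * n - 1 + 1) → Bool) (M M' : ℕ) (σ τ : Wd (2 * n - 1 + 1)) (k : ℕ) :
    Ch (Full c c' M M' σ.1 τ.1) (StI (-M) M') k (0, 0) (2 * n, 0) ↔
      2 * f (rows _ c M σ).1 (rows _ c' M' τ).1 ≤ k := sorry

end Pool.Agent.H863R2.Nest
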